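import Pool.Agent.FBM.StmtB
import Pool.Agent.FBM.B0

/-!
# FBM, block B: the Euler-Lagrange equations (B2)
-/

open MeasureTheory Set Filter Topology
open scoped Real

namespace Pool.Agent.FBM

namespace B2

/-- energy of a product -/
lemma en_mul_le {f g : ℝ → ℝ} (hf : FE f) (hg : FE g) {C C' : ℝ} (h1 : ∀ t, |f t| ≤ C)
    (h2 : ∀ t, |g t| ≤ C') :
    en (fun t => f t * g t) (fun t => f t * g t) ≤ 2 * C' ^ 2 * en f f + 2 * C ^ 2 * en g g := by
  unfold en
  have e : 2 * C' ^ 2 * ((1 / (2 * π)) * ∫ p, J p.1 p.2 * ((f p.1 - f p.2) * (f p.1 - f p.2)) ∂cm2) +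
      2 * C ^ 2 * ((1 / (2 * π)) * ∫ p, J p.1 p.2 * ((g p.1 - g p.2) * (g p.1 - g p.2)) ∂cm2) =
      (1 / (2 * π)) * ∫ p, (2 * C' ^ 2 * (J p.1 p.2 * ((f p.1 - f p.2) * (f p.1 - f p.2))) +
        2 * C ^ 2 * (J p.1 p.2 * ((g p.1 - g p.2) * (g p.1 - g p.2)))) ∂cm2 := by
    rw [integral_add ((hf.int hf).const_mul _) ((hg.int hg).const_mul _), integral_const_mul,
      integral_const_mul]
    ring
  rw [e]
  refine mul_le_mul_of_nonneg_left ?_ (by positivity)
  refine integral_mono ((hf.mul hg).int (hf.mul hg))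
    (((hf.int hf).const_mul _).add ((hg.int hg).const_mul _)) fun p => ?_
  show J p.1 p.2 * ((f p.1 * g p.1 - f p.2 * g p.2) * (f p.1 * g p.1 - f p.2 * g p.2)) ≤
    2 * C' ^ 2 * (J p.1 p.2 * ((f p.1 - f p.2) * (f p.1 - f p.2))) +
        2 * C ^ 2 * (J p.1 p.2 * ((g p.1 - g p.2) * (g p.1 - g p.2)))
  have a1 : g p.1 ^ 2 ≤ C' ^ 2 := by
    rw [← sq_abs]; exact pow_le_pow_left₀ (abs_nonneg _) (h2 p.1) 2
  have a2 : f p.2 ^ 2 ≤ C ^ 2 := by
    rw [← sq_abs]; exact pow_le_pow_left₀ (abs_nonneg _) (h1 p.2) 2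
  have a3 : (f p.1 * g p.1 - f p.2 * g p.2) * (f p.1 * g p.1 - f p.2 * g p.2) ≤
      2 * C' ^ 2 * ((f p.1 - f p.2) * (f p.1 - f p.2)) +
        2 * C ^ 2 * ((g p.1 - g p.2) * (g p.1 - g p.2)) := by
    have e : f p.1 * g p.1 - f p.2 * g p.2 = (f p.1 - f p.2) * g p.1 + f p.2 * (g p.1 - g p.2) := by
      ring
    rw [e]
    have h3 : ((f p.1 - f p.2) * g p.1 + f p.2 * (g p.1 - g p.2)) ^ 2
        ≤ 2 * ((f p.1 - f p.2) ^ 2 * g p.1 ^ 2 + f p.2 ^ 2 * (g p.1 - g p.2) ^ 2) := by
      nlinarith [sq_nonneg ((f p.1 - f p.2) * g p.1 - f p.2 * (g p.1 - g p.2))]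
    have h4 := mul_le_mul_of_nonneg_left a1 (sq_nonneg (f p.1 - f p.2))
    have h5 := mul_le_mul_of_nonneg_right a2 (sq_nonneg (g p.1 - g p.2))
    nlinarith
  have a4 := mul_le_mul_of_nonneg_left a3 (J_nonneg p.1 p.2)
  calc _ ≤ _ := a4
    _ = _ := by ring

lemma weak (hW : Stmt_A_weak) (hC : Stmt_A_cut) (hM : Stmt_B_mea) (hO : Stmt_B_wof)
    (hZ : Stmt_B_tzf) (hT : Stmt_B_tin) {D : Dat} (hD : D.Tm) {X : Fin 3 → ℝ → ℝ}
    (hX : IsMin D X) (i : Fin 3) (g : ℝ → ℝ) (hg : FE g) :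
    en (X i) g = ∫ t, TX D X i t * g t ∂cm := by
  obtain ⟨χ, hχ, hχ1, hχ2, hχ3, hχ4⟩ := hC 1 (fun _ => D.Z i) (fun _ => hD.tZ i)
  obtain ⟨C, hgC⟩ := hg.bdd
  have hTi : Integrable (TX D X i) cm := hT D hD X hX i
  have hoff : ∀ t, t ∉ D.Z i → TX D X i t = lamX D X t * X i t := ((hM D hD X hX.oct).2 i).2.2.2
  have hχa : ∀ k t, |χ k t| ≤ 1 := fun k t => by
    rw [abs_of_nonneg (hχ1 k t).1]
    exact (hχ1 k t).2
  have hfb : ∀ k t, |g t * χ k t| ≤ C := by
    intro k t
    rw [abs_mul]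
    calc |g t| * |χ k t| ≤ |g t| * 1 := mul_le_mul_of_nonneg_left (hχa k t) (abs_nonneg _)
      _ ≤ C := by rw [mul_one]; exact hgC t
  -- multiplication of the integrable function with a bounded one
  have hbi : ∀ f : ℝ → ℝ, FE f → Integrable (fun t => TX D X i t * f t) cm := by
    intro f hf
    obtain ⟨B, hB⟩ := hf.bdd
    exact hTi.mul_bdd (c := B) hf.meas.aestronglyMeasurable
      (Eventually.of_forall fun t => by rw [Real.norm_eq_abs]; exact hB t)
  -- the identity for the truncated functions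
  have hk : ∀ k, en (fun t => g t * χ k t) (X i) = ∫ t, TX D X i t * (g t * χ k t) ∂cm := by
    intro k
    have ha : FE ((D.Z i).indicator (fun t => g t * χ k t)) := hχ4 k 0 g hg
    have hb : FE (fun t => g t * χ k t - (D.Z i).indicator (fun t => g t * χ k t) t) :=
      (hg.mul (hχ k)).sub ha
    have e1 := (hZ D hD X hX.oct i _ ha (van_indicator _ _)).2
    have e2 := hO D hD X hX i _ hb (van_sub_indicator _ _)
    have e3 : ∫ t, lamX D X t * X i t *
        (g t * χ k t - (D.Z i).indicator (fun t => g t * χ k t) t) ∂cm =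
        ∫ t, TX D X i t * (g t * χ k t - (D.Z i).indicator (fun t => g t * χ k t) t) ∂cm := by
      refine integral_congr_ae (Eventually.of_forall fun t => ?_)
      show lamX D X t * X i t * (g t * χ k t - (D.Z i).indicator (fun t => g t * χ k t) t) =
        TX D X i t * (g t * χ k t - (D.Z i).indicator (fun t => g t * χ k t) t)
      by_cases ht : t ∈ D.Z i
      · rw [indicator_of_mem ht, sub_self, mul_zero, mul_zero]
      · rw [hoff t ht]
    have e4 : en (X i) (fun t => g t * χ k t) =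
        en (X i) ((D.Z i).indicator (fun t => g t * χ k t)) +
        en (X i) (fun t => g t * χ k t - (D.Z i).indicator (fun t => g t * χ k t) t) := by
      rw [← en_add_right (hX.oct.fe i) ha hb]
      congr 1
      funext t
      ring
    rw [en_comm, e4, e1, e2, e3, ← integral_add (hbi _ ha) (hbi _ hb)]
    refine integral_congr_ae (Eventually.of_forall fun t => ?_)
    show TX D X i t * (D.Z i).indicator (fun t => g t * χ k t) t +
      TX D X i t * (g t * χ k t - (D.Z i).indicator (fun t => g t * χ k t) t) =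
      TX D X i t * (g t * χ k t)
    ring
  -- the limit of the left side
  obtain ⟨M, hMb⟩ := hχ2.bddAbove_range
  have hK : ∀ k, en (fun t => g t * χ k t) (fun t => g t * χ k t) ≤
      2 * 1 ^ 2 * en g g + 2 * C ^ 2 * M := by
    intro k
    have h1 := en_mul_le hg (hχ k) hgC (hχa k)
    have h2 : en (χ k) (χ k) ≤ M := hMb ⟨k, rfl⟩
    have h3 := mul_le_mul_of_nonneg_left h2 (show (0 : ℝ) ≤ 2 * C ^ 2 by positivity)
    linarith
  have hl := hW (fun k t => g t * χ k t) g C _ (fun k => hg.mul (hχ k)) hfb hK hg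
    (hχ3.mono fun t ht => by
      have := ht.const_mul (g t)
      rwa [mul_one] at this) (X i) (hX.oct.fe i)
  -- the limit of the right side
  have hr : Tendsto (fun k => ∫ t, TX D X i t * (g t * χ k t) ∂cm) atTop
      (𝓝 (∫ t, TX D X i t * g t ∂cm)) := by
    refine tendsto_integral_of_dominated_convergence (fun t => |TX D X i t| * C)
      (fun k => (hbi _ (hg.mul (hχ k))).aestronglyMeasurable) (hTi.abs.mul_const C)
      (fun k => Eventually.of_forall fun t => ?_) (hχ3.mono fun t ht => ?_)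
    · rw [Real.norm_eq_abs, abs_mul]
      exact mul_le_mul_of_nonneg_left (hfb k t) (abs_nonneg _)
    · have := (ht.const_mul (g t)).const_mul (TX D X i t)
      rwa [mul_one] at this
  have hl' : Tendsto (fun k => ∫ t, TX D X i t * (g t * χ k t) ∂cm) atTop (𝓝 (en g (X i))) :=
    hl.congr hk
  rw [en_comm]
  exact tendsto_nhds_unique hl' hr

end B2

/-- B2: the Euler-Lagrange equations. -/
theorem t_B2 (hW : Stmt_A_weak) (hC : Stmt_A_cut) (hM : Stmt_B_mea) (hI : Stmt_B_lin)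
    (hO : Stmt_B_wof) (hZ : Stmt_B_tzf) (hT : Stmt_B_tin) (hP : Stmt_B_lpo) : Stmt_B2 := by
  intro D hD X hX
  obtain ⟨⟨m1, m2, m3⟩, m4⟩ := hM D hD X hX.oct
  obtain ⟨i1, i2⟩ := hI D hD X hX
  exact
    { oct := hX.oct
      lam_meas := m1
      lam_per := m2
      lam_nonneg := m3
      lam_int := i1
      lam_off := fun t ht => by unfold lamX; exact indicator_of_notMem ht _
      lam_tot := i2
      lam_pos := fun h => hP D hD X hX h
      T_meas := fun i => (m4 i).1
      T_per := fun i => (m4 i).2.1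
      T_int := fun i => hT D hD X hX i
      T_off := fun i => (m4 i).2.2.2
      T_Z := fun i => (m4 i).2.2.1
      weak := fun i g hg => B2.weak hW hC hM hO hZ hT hD hX i g hg }

end Pool.Agent.FBM
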