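import Pool.Agent.FBM.StmtB

/-!
# FBM, block B: positivity of the components
-/

open MeasureTheory Set Filter Topology
open scoped Real

namespace Pool.Agent.FBM

theorem t_B3 (hS : Stmt_B_sup) : Stmt_B_pos := by
  intro D X lam T hD hEL i hne t ht
  refine hS (X i) (D.Z i) (hEL.oct.adm.fe i) (hEL.oct.nonneg i) (hD.tZ i).per ?_ hne t ht
  intro g hg hg0 hgZ
  rw [hEL.weak i g hg]
  refine integral_nonneg_of_ae ?_
  filter_upwards [hgZ] with s hs
  by_cases hsZ : s ∈ D.Z i
  · rw [hs hsZ, mul_zero]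
    exact le_rfl
  · rw [hEL.T_off i s hsZ]
    exact mul_nonneg (mul_nonneg (hEL.lam_nonneg s) (hEL.oct.nonneg i s)) (hg0 s)

end Pool.Agent.FBM
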