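import Pool.Agent.FBM.StmtB
import Pool.Agent.FBM.B0

/-!
# FBM, block B: Picone's inequality
-/

open MeasureTheory Set Filter Topology
open scoped Real

namespace Pool.Agent.FBM

namespace B4

/-- the regularised quotient -/
lemma fe_quot {x y : ℝ → ℝ} (hx : FE x) (hy : FE y) (hx0 : ∀ t, 0 ≤ x t) {ε : ℝ} (hε : 0 < ε) :
    FE (fun t => y t ^ 2 / (x t + ε)) := by
  have h1 : FE (fun t => (fun u : ℝ => 1 / (max u 0 + ε)) (x t)) := by
    refine hx.lip (Φ := fun u : ℝ => 1 / (max u 0 + ε)) (L := 1 / ε ^ 2) fun u v => ?_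
    have hu : 0 < max u 0 + ε := by have := le_max_right u 0; linarith
    have hv : 0 < max v 0 + ε := by have := le_max_right v 0; linarith
    have e : 1 / (max u 0 + ε) - 1 / (max v 0 + ε) =
        (max v 0 - max u 0) / ((max u 0 + ε) * (max v 0 + ε)) := by
      field_simp
      ring
    rw [e, abs_div, abs_of_pos (mul_pos hu hv), div_eq_mul_one_div, mul_comm]
    have h2 : |max v 0 - max u 0| ≤ |u - v| := by
      rw [abs_sub_comm u v]
      exact abs_max_sub_max_le_abs v u 0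
    have h3 : 1 / ((max u 0 + ε) * (max v 0 + ε)) ≤ 1 / ε ^ 2 := by
      apply one_div_le_one_div_of_le (by positivity)
      have a1 : ε ≤ max u 0 + ε := by have := le_max_right u 0; linarith
      have a2 : ε ≤ max v 0 + ε := by have := le_max_right v 0; linarith
      rw [sq]
      exact mul_le_mul a1 a2 hε.le hu.le
    exact mul_le_mul h3 h2 (abs_nonneg _) (by positivity)
  refine (congrArg FE (funext fun t => ?_)).mp ((hy.mul hy).mul h1)
  simp only [max_eq_left (hx0 t)]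
  ring

lemma picone_id {a b u v : ℝ} (ha : 0 < a) (hb : 0 < b) :
    (u - v) ^ 2 - (a - b) * (u ^ 2 / a - v ^ 2 / b) = (b * u - a * v) ^ 2 / (a * b) := by
  field_simp
  ring

end B4

open B4 in
/-- B4 -/
theorem t_B4 (hA : Stmt_B_pae) : Stmt_B4 := by
  intro D X lam T hD hEL i hne y hy hyZ
  have hpi := Real.pi_pos
  set x := X i with hxdef
  have hx : FE x := hEL.oct.fe i
  have hx0 : ∀ t, 0 ≤ x t := hEL.oct.nonneg i
  have hx1 : ∀ t, x t ≤ 1 := hEL.oct.le i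
  obtain ⟨C, hC⟩ := hy.bdd
  have hy2 : ∀ t, y t ^ 2 ≤ C ^ 2 := fun t => by
    rw [← sq_abs]; exact pow_le_pow_left₀ (abs_nonneg _) (hC t) 2
  -- the square of the wronskian
  have hwm : Measurable fun p : ℝ × ℝ => y p.1 * x p.2 - y p.2 * x p.1 :=
    ((hy.meas.comp measurable_fst).mul (hx.meas.comp measurable_snd)).sub
      ((hy.meas.comp measurable_snd).mul (hx.meas.comp measurable_fst))
  have hwI : Integrable (fun p : ℝ × ℝ => J p.1 p.2 * (y p.1 * x p.2 - y p.2 * x p.1) ^ 2)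
      cm2 := by
    refine ((hy.fin.const_mul 2).add (hx.fin.const_mul (2 * C ^ 2))).mono'
      (measurable_J.mul (hwm.pow_const 2)).aestronglyMeasurable
      (Eventually.of_forall fun p => ?_)
    rw [Real.norm_eq_abs, abs_of_nonneg (mul_nonneg (J_nonneg _ _) (sq_nonneg _))]
    have h1 : (y p.1 * x p.2 - y p.2 * x p.1) ^ 2 ≤
        2 * (y p.1 - y p.2) ^ 2 + 2 * C ^ 2 * (x p.1 - x p.2) ^ 2 := by
      have e : y p.1 * x p.2 - y p.2 * x p.1 =
          x p.2 * (y p.1 - y p.2) - y p.2 * (x p.1 - x p.2) := by ring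
      rw [e]
      have a1 : (x p.2 * (y p.1 - y p.2) - y p.2 * (x p.1 - x p.2)) ^ 2 ≤
          2 * (x p.2 ^ 2 * (y p.1 - y p.2) ^ 2) + 2 * (y p.2 ^ 2 * (x p.1 - x p.2) ^ 2) := by
        nlinarith [sq_nonneg (x p.2 * (y p.1 - y p.2) + y p.2 * (x p.1 - x p.2))]
      have a2 : x p.2 ^ 2 ≤ 1 := by nlinarith [hx0 p.2, hx1 p.2]
      have a3 := mul_le_mul_of_nonneg_right a2 (sq_nonneg (y p.1 - y p.2))
      have a4 := mul_le_mul_of_nonneg_right (hy2 p.2) (sq_nonneg (x p.1 - x p.2))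
      nlinarith
    have h2 := mul_le_mul_of_nonneg_left h1 (J_nonneg p.1 p.2)
    simp only [Pi.add_apply]
    nlinarith [h2]
  refine ⟨hwI, ?_⟩
  -- mixed term
  have hmI : Integrable (fun p : ℝ × ℝ => J p.1 p.2 *
      ((y p.1 * x p.2 - y p.2 * x p.1) * (y p.1 - y p.2))) cm2 := by
    refine (hwI.add hy.fin).mono' (measurable_J.mul (hwm.mul hy.ddmeas)).aestronglyMeasurable
      (Eventually.of_forall fun p => ?_)
    rw [Real.norm_eq_abs, abs_mul, abs_of_nonneg (J_nonneg _ _), abs_mul]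
    simp only [Pi.add_apply]
    rw [← mul_add]
    refine mul_le_mul_of_nonneg_left ?_ (J_nonneg _ _)
    rw [← sq_abs (y p.1 * x p.2 - y p.2 * x p.1), ← sq_abs (y p.1 - y p.2)]
    nlinarith [sq_nonneg (|y p.1 * x p.2 - y p.2 * x p.1| - |y p.1 - y p.2|),
      abs_nonneg (y p.1 * x p.2 - y p.2 * x p.1), abs_nonneg (y p.1 - y p.2)]
  set A := ∫ p, J p.1 p.2 * (y p.1 * x p.2 - y p.2 * x p.1) ^ 2 ∂cm2 with hAdef
  set B := ∫ p, J p.1 p.2 * ((y p.1 * x p.2 - y p.2 * x p.1) * (y p.1 - y p.2)) ∂cm2 with hBdef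
  set E := ∫ p, J p.1 p.2 * (y p.1 - y p.2) ^ 2 ∂cm2 with hEdef
  set Lf : ℝ → ℝ := fun ε => ∫ t, lam t * (x t * (y t ^ 2 / (x t + ε))) ∂cm with hLf
  -- the inequality for positive ε
  have hineq : ∀ ε : ℝ, 0 < ε →
      A + 2 * ε * B + ε ^ 2 * E ≤ (1 + ε) ^ 2 * (2 * π * (en y y - Lf ε)) := by
    intro ε hε
    have hq := fe_quot hx hy hx0 hε
    -- the weak equation
    have hw : en x (fun t => y t ^ 2 / (x t + ε)) = Lf ε := by
      rw [hxdef, hEL.weak i _ hq]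
      refine integral_congr_ae ?_
      filter_upwards [hyZ] with t ht
      by_cases htZ : t ∈ D.Z i
      · simp only [ht htZ]
        ring
      · simp only [hEL.T_off i t htZ]
        ring
    have hIy := hy.int hy
    have hIq := hx.int hq
    have hpt : ∀ p : ℝ × ℝ, J p.1 p.2 * (y p.1 * x p.2 - y p.2 * x p.1) ^ 2 +
        (2 * ε * (J p.1 p.2 * ((y p.1 * x p.2 - y p.2 * x p.1) * (y p.1 - y p.2))) +
        ε ^ 2 * (J p.1 p.2 * (y p.1 - y p.2) ^ 2)) ≤
        (1 + ε) ^ 2 * (J p.1 p.2 * ((y p.1 - y p.2) * (y p.1 - y p.2)) -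
          J p.1 p.2 * ((x p.1 - x p.2) * (y p.1 ^ 2 / (x p.1 + ε) - y p.2 ^ 2 / (x p.2 + ε)))) := by
      intro p
      have ha : 0 < x p.1 + ε := by have := hx0 p.1; linarith
      have hb : 0 < x p.2 + ε := by have := hx0 p.2; linarith
      have hid := picone_id (u := y p.1) (v := y p.2) ha hb
      have e1 : (x p.1 + ε - (x p.2 + ε)) = x p.1 - x p.2 := by ring
      rw [e1] at hid
      have e2 : J p.1 p.2 * ((y p.1 - y p.2) * (y p.1 - y p.2)) -
          J p.1 p.2 * ((x p.1 - x p.2) * (y p.1 ^ 2 / (x p.1 + ε) - y p.2 ^ 2 / (x p.2 + ε))) =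
          J p.1 p.2 * (((x p.2 + ε) * y p.1 - (x p.1 + ε) * y p.2) ^ 2 /
            ((x p.1 + ε) * (x p.2 + ε))) := by
        rw [← hid]; ring
      rw [e2]
      have e3 : J p.1 p.2 * (y p.1 * x p.2 - y p.2 * x p.1) ^ 2 +
        (2 * ε * (J p.1 p.2 * ((y p.1 * x p.2 - y p.2 * x p.1) * (y p.1 - y p.2))) +
        ε ^ 2 * (J p.1 p.2 * (y p.1 - y p.2) ^ 2)) =
        J p.1 p.2 * ((x p.2 + ε) * y p.1 - (x p.1 + ε) * y p.2) ^ 2 := by ring
      rw [e3, mul_left_comm]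
      refine mul_le_mul_of_nonneg_left ?_ (J_nonneg _ _)
      rw [mul_div_assoc', le_div_iff₀ (mul_pos ha hb), mul_comm]
      refine mul_le_mul_of_nonneg_right ?_ (sq_nonneg _)
      rw [sq]
      exact mul_le_mul (by linarith [hx1 p.1]) (by linarith [hx1 p.2]) hb.le (by linarith)
    have hI2 : Integrable (fun p : ℝ × ℝ => 2 * ε * (J p.1 p.2 *
        ((y p.1 * x p.2 - y p.2 * x p.1) * (y p.1 - y p.2)))) cm2 := hmI.const_mul (2 * ε)
    have hI3 : Integrable (fun p : ℝ × ℝ => ε ^ 2 * (J p.1 p.2 * (y p.1 - y p.2) ^ 2)) cm2 :=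
      hy.fin.const_mul (ε ^ 2)
    have hI23 : Integrable (fun p : ℝ × ℝ => 2 * ε * (J p.1 p.2 *
        ((y p.1 * x p.2 - y p.2 * x p.1) * (y p.1 - y p.2))) +
        ε ^ 2 * (J p.1 p.2 * (y p.1 - y p.2) ^ 2)) cm2 := hI2.add hI3
    have s1 : ∫ p : ℝ × ℝ, (J p.1 p.2 * (y p.1 * x p.2 - y p.2 * x p.1) ^ 2 +
        (2 * ε * (J p.1 p.2 * ((y p.1 * x p.2 - y p.2 * x p.1) * (y p.1 - y p.2))) +
        ε ^ 2 * (J p.1 p.2 * (y p.1 - y p.2) ^ 2))) ∂cm2 = A + (2 * ε * B + ε ^ 2 * E) := by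
      rw [integral_add hwI hI23, integral_add hI2 hI3, integral_const_mul, integral_const_mul]
    have s2 : ∫ p : ℝ × ℝ, (1 + ε) ^ 2 * (J p.1 p.2 * ((y p.1 - y p.2) * (y p.1 - y p.2)) -
          J p.1 p.2 * ((x p.1 - x p.2) * (y p.1 ^ 2 / (x p.1 + ε) - y p.2 ^ 2 / (x p.2 + ε)))) ∂cm2
        = (1 + ε) ^ 2 * ((∫ p, J p.1 p.2 * ((y p.1 - y p.2) * (y p.1 - y p.2)) ∂cm2) -
          ∫ p, J p.1 p.2 * ((x p.1 - x p.2) *
            (y p.1 ^ 2 / (x p.1 + ε) - y p.2 ^ 2 / (x p.2 + ε))) ∂cm2) := by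
      rw [integral_const_mul, integral_sub hIy hIq]
    have hint := integral_mono (hwI.add hI23) ((hIy.sub hIq).const_mul ((1 + ε) ^ 2)) hpt
    have hint : A + (2 * ε * B + ε ^ 2 * E) ≤
        (1 + ε) ^ 2 * ((∫ p, J p.1 p.2 * ((y p.1 - y p.2) * (y p.1 - y p.2)) ∂cm2) -
          ∫ p, J p.1 p.2 * ((x p.1 - x p.2) *
            (y p.1 ^ 2 / (x p.1 + ε) - y p.2 ^ 2 / (x p.2 + ε))) ∂cm2) := by
      rw [← s1, ← s2]
      exact hint
    have f1 : ∫ p, J p.1 p.2 * ((y p.1 - y p.2) * (y p.1 - y p.2)) ∂cm2 = 2 * π * en y y := by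
      unfold en
      field_simp
    have f2 : ∫ p, J p.1 p.2 * ((x p.1 - x p.2) *
        (y p.1 ^ 2 / (x p.1 + ε) - y p.2 ^ 2 / (x p.2 + ε))) ∂cm2 = 2 * π * Lf ε := by
      rw [← hw]
      unfold en
      field_simp
    rw [f1, f2] at hint
    calc A + 2 * ε * B + ε ^ 2 * E = A + (2 * ε * B + ε ^ 2 * E) := by ring
      _ ≤ _ := hint
      _ = (1 + ε) ^ 2 * (2 * π * (en y y - Lf ε)) := by ring
  -- the limit
  have hε : ∀ n : ℕ, 0 < 1 / ((n : ℝ) + 1) := fun n => by positivity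
  have hε0 : Tendsto (fun n : ℕ => 1 / ((n : ℝ) + 1)) atTop (𝓝 0) :=
    tendsto_one_div_add_atTop_nhds_zero_nat
  have hpae := hA D X lam T hD hEL i hne
  have hL : Tendsto (fun n : ℕ => Lf (1 / ((n : ℝ) + 1))) atTop (𝓝 (∫ t, lam t * y t ^ 2 ∂cm)) := by
    refine tendsto_integral_of_dominated_convergence (fun t => lam t * C ^ 2) ?_ ?_ ?_ ?_
    · intro n
      exact (hEL.lam_meas.mul (hx.meas.mul ((hy.meas.pow_const 2).div
        (hx.meas.add_const _)))).aestronglyMeasurable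
    · exact hEL.lam_int.mul_const _
    · intro n
      refine Eventually.of_forall fun t => ?_
      have h1 : 0 < x t + 1 / ((n : ℝ) + 1) := by have := hx0 t; have := hε n; linarith
      have h2 : 0 ≤ x t * (y t ^ 2 / (x t + 1 / ((n : ℝ) + 1))) :=
        mul_nonneg (hx0 t) (div_nonneg (sq_nonneg _) h1.le)
      rw [Real.norm_eq_abs, abs_of_nonneg (mul_nonneg (hEL.lam_nonneg t) h2)]
      refine mul_le_mul_of_nonneg_left ?_ (hEL.lam_nonneg t)
      rw [mul_div_assoc', div_le_iff₀ h1]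
      have h3 : x t * y t ^ 2 ≤ (x t + 1 / ((n : ℝ) + 1)) * C ^ 2 :=
        mul_le_mul (by linarith [hε n]) (hy2 t) (sq_nonneg _) h1.le
      linarith
    · filter_upwards [hpae, hyZ] with t ht1 ht2
      by_cases htZ : t ∈ D.Z i
      · simp only [ht2 htZ]
        simp
      · have hxt : 0 < x t := ht1 htZ
        have h4 : Tendsto (fun n : ℕ => lam t * (x t * (y t ^ 2 / (x t + 1 / ((n : ℝ) + 1)))))
            atTop (𝓝 (lam t * (x t * (y t ^ 2 / (x t + 0))))) := by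
          refine Tendsto.const_mul _ (Tendsto.const_mul _ (Tendsto.div tendsto_const_nhds
            (tendsto_const_nhds.add hε0) (by rw [add_zero]; exact hxt.ne')))
        have h5 : lam t * (x t * (y t ^ 2 / (x t + 0))) = lam t * y t ^ 2 := by
          rw [add_zero]
          field_simp
        rw [h5] at h4
        exact h4
  have hl1 : Tendsto (fun n : ℕ => A + 2 * (1 / ((n : ℝ) + 1)) * B + (1 / ((n : ℝ) + 1)) ^ 2 * E)
      atTop (𝓝 (A + 2 * 0 * B + 0 ^ 2 * E)) :=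
    (tendsto_const_nhds.add ((tendsto_const_nhds.mul hε0).mul tendsto_const_nhds)).add
      ((hε0.pow 2).mul tendsto_const_nhds)
  have hl2 : Tendsto (fun n : ℕ => (1 + 1 / ((n : ℝ) + 1)) ^ 2 *
      (2 * π * (en y y - Lf (1 / ((n : ℝ) + 1))))) atTop
      (𝓝 ((1 + 0) ^ 2 * (2 * π * (en y y - ∫ t, lam t * y t ^ 2 ∂cm)))) :=
    ((tendsto_const_nhds.add hε0).pow 2).mul
      (tendsto_const_nhds.mul (tendsto_const_nhds.sub hL))
  have hfin := le_of_tendsto_of_tendsto' hl1 hl2 (fun n => hineq _ (hε n))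
  have hfin2 : A ≤ 2 * π * (en y y - ∫ t, lam t * y t ^ 2 ∂cm) := by
    calc A = A + 2 * 0 * B + 0 ^ 2 * E := by ring
      _ ≤ _ := hfin
      _ = _ := by ring
  have h2pi : (0 : ℝ) < 2 * π := by positivity
  rw [div_mul_eq_mul_div, one_mul, div_le_iff₀ h2pi]
  linarith

end Pool.Agent.FBM
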