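import Pool.Agent.FBM.B0

/-!
# Module FBM_B5: minimisers are proportional to a minimiser with maximal support
-/

open MeasureTheory Set Filter Topology
open scoped Real

namespace Pool.Agent.FBM.B5

/-- the square integral of the determinants in the component `i` -/
noncomputable def qq (x y : ℝ → ℝ) : ℝ :=
  (1 / (2 * π)) * ∫ p, J p.1 p.2 * (y p.1 * x p.2 - y p.2 * x p.1) ^ 2 ∂cm2

theorem qq_nonneg (x y : ℝ → ℝ) : 0 ≤ qq x y := by
  unfold qq
  exact mul_nonneg (by positivity)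
    (integral_nonneg fun p => mul_nonneg (J_nonneg _ _) (sq_nonneg _))

/-- integrability of `lam y²` -/
theorem int_lam {lam y : ℝ → ℝ} (hl : Integrable lam cm) (hy : FE y) :
    Integrable (fun t => lam t * y t ^ 2) cm := by
  obtain ⟨C, hC⟩ := hy.bdd
  refine hl.mul_bdd (c := C ^ 2) ((hy.meas.pow_const 2).aestronglyMeasurable)
    (Eventually.of_forall fun t => ?_)
  rw [Real.norm_eq_abs, abs_of_nonneg (sq_nonneg _), ← sq_abs]
  exact pow_le_pow_left₀ (abs_nonneg _) (hC t) 2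

/-- two proportional functions -/
theorem prop_of_qq {x y : ℝ → ℝ} (hx : ¬ ∀ᵐ t ∂cm, x t = 0) (hx0 : ∀ t, 0 ≤ x t)
    (hy0 : ∀ t, 0 ≤ y t)
    (hint : Integrable (fun p : ℝ × ℝ => J p.1 p.2 * (y p.1 * x p.2 - y p.2 * x p.1) ^ 2) cm2)
    (hq : qq x y = 0) : ∃ c : ℝ, 0 ≤ c ∧ ∀ᵐ t ∂cm, y t = c * x t := by
  have h1 : ∫ p, J p.1 p.2 * (y p.1 * x p.2 - y p.2 * x p.1) ^ 2 ∂cm2 = 0 := by
    unfold qq at hq
    rcases mul_eq_zero.1 hq with h | h
    · exact absurd h (by positivity)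
    · exact h
  have h2 := (integral_eq_zero_iff_of_nonneg
    (fun p : ℝ × ℝ => mul_nonneg (J_nonneg p.1 p.2) (sq_nonneg _)) hint).1 h1
  have h3 : ∀ᵐ p : ℝ × ℝ ∂cm2, y p.1 * x p.2 = y p.2 * x p.1 := by
    filter_upwards [h2, cm2_J_ge] with p hp hJ
    have h4 : J p.1 p.2 ≠ 0 := by
      intro h0
      rw [h0] at hJ
      norm_num at hJ
    have h5 : (y p.1 * x p.2 - y p.2 * x p.1) ^ 2 = 0 := by
      rcases mul_eq_zero.1 hp with h | h
      · exact absurd h h4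
      · exact h
    have h6 := pow_eq_zero_iff (two_ne_zero) |>.1 h5
    linarith
  have h4 : ∀ᵐ s ∂cm, ∀ᵐ t ∂cm, y s * x t = y t * x s := by
    unfold cm2 at h3
    exact Measure.ae_ae_of_ae_prod h3
  obtain ⟨s, hs, hs'⟩ := ((not_eventually.1 hx).and_eventually h4).exists
  refine ⟨y s / x s, div_nonneg (hy0 s) (hx0 s), ?_⟩
  filter_upwards [hs'] with t ht
  have hs2 : x s ≠ 0 := hs
  field_simp
  linarith

end Pool.Agent.FBM.B5

namespace Pool.Agent.FBM

open B5 in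
theorem t_B5 (hP : Stmt_B4) : Stmt_B5 := by
  intro D X Y lam T hD hX hE hY hsup
  have hYo := hY.oct
  -- the terms
  have hterm : ∀ i, 0 ≤ en (Y i) (Y i) - ∫ t, lam t * Y i t ^ 2 ∂cm := by
    intro i
    by_cases hi : ∀ᵐ t ∂cm, X i t = 0
    · have hy := hsup i hi
      have e1 : en (Y i) (Y i) = 0 := by
        rw [en_congr (f' := fun _ => (0 : ℝ)) (g' := fun _ => (0 : ℝ)) hy hy]
        exact en_const_left 0 _
      have e2 : ∫ t, lam t * Y i t ^ 2 ∂cm = 0 := by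
        rw [integral_congr_ae (g := fun _ => (0 : ℝ))]
        · simp
        · filter_upwards [hy] with t ht
          simp [ht]
      rw [e1, e2, sub_zero]
    · exact (qq_nonneg (X i) (Y i)).trans (hP D X lam T hD hE i hi (Y i) (hYo.fe i) (hYo.van i)).2
  have hsum : ∑ i, (en (Y i) (Y i) - ∫ t, lam t * Y i t ^ 2 ∂cm) = 0 := by
    have hi : ∑ i, ∫ t, lam t * Y i t ^ 2 ∂cm = ∫ t, lam t ∂cm := by
      rw [← integral_finsetSum _ fun i _ => int_lam hE.lam_int (hYo.fe i)]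
      refine integral_congr_ae ?_
      filter_upwards [hYo.adm.one] with t ht
      rw [← Finset.mul_sum]
      by_cases hH : t ∈ D.H
      · rw [ht hH, mul_one]
      · rw [hE.lam_off t hH, zero_mul]
    rw [Finset.sum_sub_distrib, hi, hE.lam_tot]
    have h1 : ven Y Y ≤ ven X X := hY.min X hX.oct.adm
    have h2 : ven X X ≤ ven Y Y := hX.min Y hYo.adm
    have h3 : ∑ i, en (Y i) (Y i) = ven Y Y := rfl
    rw [h3]
    linarith
  have hzero : ∀ i, en (Y i) (Y i) - ∫ t, lam t * Y i t ^ 2 ∂cm = 0 := fun i =>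
    (Finset.sum_eq_zero_iff_of_nonneg fun j _ => hterm j).1 hsum i (Finset.mem_univ i)
  have hc : ∀ i, ∃ c : ℝ, 0 ≤ c ∧ ∀ᵐ t ∂cm, Y i t = c * X i t := by
    intro i
    by_cases hi : ∀ᵐ t ∂cm, X i t = 0
    · refine ⟨0, le_rfl, ?_⟩
      filter_upwards [hsup i hi] with t ht
      rw [ht, zero_mul]
    · obtain ⟨h1, h2⟩ := hP D X lam T hD hE i hi (Y i) (hYo.fe i) (hYo.van i)
      rw [hzero i] at h2
      exact prop_of_qq hi (hX.oct.nonneg i) (hYo.nonneg i) h1
        (le_antisymm h2 (qq_nonneg (X i) (Y i)))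
  choose c hc1 hc2 using hc
  exact ⟨c, hc1, hc2⟩

end Pool.Agent.FBM
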