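import Pool.Agent.FBM.StmtB

/-!
# FBM, block B: a minimiser with maximal support
-/

open MeasureTheory Set Filter Topology
open scoped Real

namespace Pool.Agent.FBM

namespace B6

/-- the quadratic mean of two maps -/
noncomputable def mn (X Y : Fin 3 → ℝ → ℝ) : Fin 3 → ℝ → ℝ := fun i t =>
  Real.sqrt ((Real.sqrt (1 / 2) * X i t) ^ 2 + (Real.sqrt (1 / 2) * Y i t) ^ 2)

theorem c_sq : Real.sqrt (1 / 2) ^ 2 = 1 / 2 := Real.sq_sqrt (by norm_num)

theorem mn_sq (X Y : Fin 3 → ℝ → ℝ) (i : Fin 3) (t : ℝ) :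
    mn X Y i t ^ 2 = (X i t ^ 2 + Y i t ^ 2) / 2 := by
  unfold mn
  rw [Real.sq_sqrt (by positivity), mul_pow, mul_pow, c_sq]
  ring

theorem mn_sum (X Y : Fin 3 → ℝ → ℝ) (t : ℝ) :
    ∑ i, mn X Y i t ^ 2 = (∑ i, X i t ^ 2 + ∑ i, Y i t ^ 2) / 2 := by
  rw [← Finset.sum_add_distrib, Finset.sum_div]
  exact Finset.sum_congr rfl fun i _ => mn_sq X Y i t

theorem mn_eq_zero {X Y : Fin 3 → ℝ → ℝ} {i : Fin 3} {t : ℝ} :
    mn X Y i t = 0 ↔ X i t = 0 ∧ Y i t = 0 := by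
  constructor
  · intro h
    have h1 := mn_sq X Y i t
    rw [h] at h1
    constructor
    · nlinarith [sq_nonneg (X i t), sq_nonneg (Y i t)]
    · nlinarith [sq_nonneg (X i t), sq_nonneg (Y i t)]
  · rintro ⟨h1, h2⟩
    have h3 := mn_sq X Y i t
    rw [h1, h2] at h3
    have h4 : mn X Y i t ^ 2 = 0 := by
      rw [h3]
      norm_num
    exact pow_eq_zero_iff (two_ne_zero) |>.1 h4

theorem isMin_mn (hS : Stmt_A_sqrt) {D : Dat} {X Y : Fin 3 → ℝ → ℝ} (hX : IsMin D X)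
    (hY : IsMin D Y) : IsMin D (mn X Y) := by
  have hu : ∀ i, FE (fun t => Real.sqrt (1 / 2) * X i t) := fun i => (hX.oct.adm.fe i).smul _
  have hw : ∀ i, FE (fun t => Real.sqrt (1 / 2) * Y i t) := fun i => (hY.oct.adm.fe i).smul _
  have hven : ven (mn X Y) (mn X Y) ≤ ven X X := by
    have h1 : ∀ i, en (mn X Y i) (mn X Y i) ≤ (en (X i) (X i) + en (Y i) (Y i)) / 2 := by
      intro i
      have h2 := (hS _ _ (hu i) (hw i)).2
      rw [en_smul_left, en_smul_right, en_smul_left, en_smul_right, ← mul_assoc, ← mul_assoc,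
        ← sq, c_sq] at h2
      have h3 : en (mn X Y i) (mn X Y i) ≤ 1 / 2 * en (X i) (X i) + 1 / 2 * en (Y i) (Y i) := h2
      linarith
    have h2 : ven (mn X Y) (mn X Y) ≤ (ven X X + ven Y Y) / 2 := by
      unfold ven
      rw [← Finset.sum_add_distrib, Finset.sum_div]
      exact Finset.sum_le_sum fun i _ => h1 i
    have h3 := hY.min X hX.oct.adm
    linarith
  refine ⟨⟨⟨fun i => (hS _ _ (hu i) (hw i)).1, fun i => ?_, ?_⟩, fun i t => Real.sqrt_nonneg _,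
    fun t => ?_, fun i t ht => ?_⟩, fun Z hZ => hven.trans (hX.min Z hZ)⟩
  · filter_upwards [hX.oct.adm.zero i, hY.oct.adm.zero i] with t h1 h2 ht
    exact mn_eq_zero.2 ⟨h1 ht, h2 ht⟩
  · filter_upwards [hX.oct.adm.one, hY.oct.adm.one] with t h1 h2 ht
    rw [mn_sum, h1 ht, h2 ht]
    norm_num
  · rw [mn_sum]
    linarith [hX.oct.le_one t, hY.oct.le_one t]
  · exact mn_eq_zero.2 ⟨hX.oct.zeroE i t ht, hY.oct.zeroE i t ht⟩

end B6

open B6 in
/-- B6: a minimiser with maximal support. -/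
theorem t_B6 (hS : Stmt_A_sqrt) : Stmt_B6 := by
  classical
  rintro D - ⟨X0, hX0⟩
  let nz : (Fin 3 → ℝ → ℝ) → Finset (Fin 3) := fun X =>
    Finset.univ.filter (fun i => ¬ ∀ᵐ t ∂cm, X i t = 0)
  have hex : ∃ n, ∃ X, IsMin D X ∧ 3 - (nz X).card = n := ⟨_, X0, hX0, rfl⟩
  obtain ⟨X, hX, hXn⟩ := Nat.find_spec hex
  refine ⟨X, hX, fun Y hY i hi => ?_⟩
  by_contra hYi
  have hM := isMin_mn hS hX hY
  have hi' : i ∉ nz X := fun h => (Finset.mem_filter.1 h).2 hi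
  have hsub : insert i (nz X) ⊆ nz (mn X Y) := by
    intro j hj
    refine Finset.mem_filter.2 ⟨Finset.mem_univ _, fun h => ?_⟩
    rcases Finset.mem_insert.1 hj with rfl | hj
    · exact hYi (h.mono fun t ht => (mn_eq_zero.1 ht).2)
    · exact (Finset.mem_filter.1 hj).2 (h.mono fun t ht => (mn_eq_zero.1 ht).1)
  have hc : (nz X).card + 1 ≤ (nz (mn X Y)).card := by
    rw [← Finset.card_insert_of_notMem hi']
    exact Finset.card_le_card hsub
  have hle : (nz (mn X Y)).card ≤ 3 := by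
    have h1 := Finset.card_le_univ (nz (mn X Y))
    rwa [Fintype.card_fin] at h1
  have h := Nat.find_min' hex ⟨mn X Y, hM, rfl⟩
  omega

end Pool.Agent.FBM
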