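import Pool.Agent.FBM.StmtB
import Pool.Agent.FBM.B0

/-!
# FBM_BEX: existence of minimisers
-/

open MeasureTheory Set Filter Topology
open scoped Real

namespace Pool.Agent.FBM

namespace BEX

lemma bddBelow_vals (D : Dat) : BddBelow {r : ℝ | ∃ X, Adm D X ∧ ven X X = r} := by
  refine ⟨0, ?_⟩
  rintro r ⟨X, _, rfl⟩
  exact ven_self_nonneg X

lemma emin_le {D : Dat} {Y : Fin 3 → ℝ → ℝ} (h : Adm D Y) : Emin D ≤ ven Y Y :=
  csInf_le (bddBelow_vals D) ⟨Y, h, rfl⟩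

/-- almost minimal normalised maps -/
lemma near (hN : Stmt_B_nrm) {D : Dat} (hT : D.Tm) (hne : ∃ Y, Adm D Y) {ε : ℝ} (hε : 0 < ε) :
    ∃ X, Oct D X ∧ ven X X ≤ Emin D + ε := by
  obtain ⟨Y₀, hY₀⟩ := hne
  have hne' : {r : ℝ | ∃ X, Adm D X ∧ ven X X = r}.Nonempty := ⟨_, Y₀, hY₀, rfl⟩
  obtain ⟨r, ⟨Y, hY, rfl⟩, hr⟩ := exists_lt_of_csInf_lt hne'
    (show sInf {r : ℝ | ∃ X, Adm D X ∧ ven X X = r} < Emin D + ε by
      have : sInf {r : ℝ | ∃ X, Adm D X ∧ ven X X = r} = Emin D := rfl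
      rw [this]; linarith)
  obtain ⟨X, hX, hXY⟩ := hN D hT Y hY
  exact ⟨X, hX, hXY.trans hr.le⟩

lemma real_sub (a : ℕ → ℝ) (K : ℝ) (h0 : ∀ k, 0 ≤ a k) (hK : ∀ k, a k ≤ K) :
    ∃ (φ : ℕ → ℕ) (e : ℝ), StrictMono φ ∧ Tendsto (fun k => a (φ k)) atTop (𝓝 e) := by
  obtain ⟨e, _, φ, hφ, ht⟩ := (isCompact_Icc (a := (0 : ℝ)) (b := K)).tendsto_subseq
    (x := a) (fun k => ⟨h0 k, hK k⟩)
  exact ⟨φ, e, hφ, ht⟩

/-- compactness for one component, with convergent energies -/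
lemma step (hF : Stmt_A_fatou) (hR : Stmt_A_rellich) (f : ℕ → ℝ → ℝ) (K : ℝ)
    (hf : ∀ k, FE (f k)) (hb : ∀ k t, |f k t| ≤ 1) (hK : ∀ k, en (f k) (f k) ≤ K) :
    ∃ (φ : ℕ → ℕ) (g : ℝ → ℝ) (e : ℝ), StrictMono φ ∧ FE g ∧
      (∀ᵐ t ∂cm, Tendsto (fun k => f (φ k) t) atTop (𝓝 (g t))) ∧
      Tendsto (fun k => en (f (φ k)) (f (φ k))) atTop (𝓝 e) ∧ en g g ≤ e := by
  obtain ⟨φ₁, g, hφ₁, hg, -, -, hae⟩ := hR f 1 K hf hb hK
  obtain ⟨φ₂, e, hφ₂, he⟩ := real_sub (fun k => en (f (φ₁ k)) (f (φ₁ k))) K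
    (fun k => en_self_nonneg _) (fun k => hK _)
  refine ⟨fun k => φ₁ (φ₂ k), g, e, hφ₁.comp hφ₂, hg, ?_, he, ?_⟩
  · filter_upwards [hae] with t ht
    exact ht.comp hφ₂.tendsto_atTop
  · refine le_of_forall_pos_le_add fun ε hε => ?_
    have h1 : ∀ᶠ k in atTop, en (f (φ₁ (φ₂ k))) (f (φ₁ (φ₂ k))) ≤ e + ε :=
      he.eventually_le_const (by linarith)
    obtain ⟨N, hN⟩ := eventually_atTop.1 h1
    refine (hF (fun k => f (φ₁ (φ₂ (k + N)))) g (e + ε) (fun k => hf _)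
      (fun k => hN _ (Nat.le_add_left _ _)) hg.meas hg.per hg.bdd ?_).2
    filter_upwards [hae] with t ht
    exact ht.comp (hφ₂.tendsto_atTop.comp (tendsto_add_atTop_nat N))

end BEX

open BEX in
/-- EXI: existence of minimisers. -/
theorem t_B1 (hF : Stmt_A_fatou) (hR : Stmt_A_rellich) (hN : Stmt_B_nrm) : Stmt_B_ex := by
  intro D hT hne
  have h1 : ∀ k : ℕ, ∃ X, Oct D X ∧ ven X X ≤ Emin D + 1 / ((k : ℝ) + 1) := fun k =>
    near hN hT hne (by positivity)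
  choose X hX hXe using h1
  have hEb : ∀ k, ven (X k) (X k) ≤ Emin D + 1 := fun k => by
    refine (hXe k).trans ?_
    have : 1 / ((k : ℝ) + 1) ≤ 1 := by
      rw [div_le_one (by positivity)]
      have : (0 : ℝ) ≤ k := Nat.cast_nonneg k
      linarith
    linarith
  have hcomp : ∀ k i, en (X k i) (X k i) ≤ Emin D + 1 := fun k i =>
    (Finset.single_le_sum (f := fun j => en (X k j) (X k j)) (fun j _ => en_self_nonneg _)
      (Finset.mem_univ i)).trans (hEb k)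
  obtain ⟨φ₀, g₀, e₀, hφ₀, hg₀, ha₀, he₀, hle₀⟩ := step hF hR (fun k => X k 0) (Emin D + 1)
    (fun k => (hX k).fe 0) (fun k t => (hX k).abs_le 0 t) (fun k => hcomp k 0)
  obtain ⟨φ₁, g₁, e₁, hφ₁, hg₁, ha₁, he₁, hle₁⟩ := step hF hR (fun k => X (φ₀ k) 1) (Emin D + 1)
    (fun k => (hX _).fe 1) (fun k t => (hX _).abs_le 1 t) (fun k => hcomp _ 1)
  obtain ⟨φ₂, g₂, e₂, hφ₂, hg₂, ha₂, he₂, hle₂⟩ := step hF hR (fun k => X (φ₀ (φ₁ k)) 2)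
    (Emin D + 1) (fun k => (hX _).fe 2) (fun k t => (hX _).abs_le 2 t) (fun k => hcomp _ 2)
  obtain ⟨ψ, hψ⟩ : ∃ ψ : ℕ → ℕ, ψ = fun k => φ₀ (φ₁ (φ₂ k)) := ⟨_, rfl⟩
  have hψm : StrictMono ψ := by rw [hψ]; exact hφ₀.comp (hφ₁.comp hφ₂)
  have hψt : Tendsto ψ atTop atTop := hψm.tendsto_atTop
  obtain ⟨g, hgdef⟩ : ∃ g : Fin 3 → ℝ → ℝ, g = ![g₀, g₁, g₂] := ⟨_, rfl⟩
  have hgfe : ∀ i, FE (g i) := by
    intro i
    rw [hgdef]
    fin_cases i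
    · exact hg₀
    · exact hg₁
    · exact hg₂
  have hae : ∀ i, ∀ᵐ t ∂cm, Tendsto (fun k => X (ψ k) i t) atTop (𝓝 (g i t)) := by
    intro i
    rw [hgdef, hψ]
    fin_cases i
    · filter_upwards [ha₀] with t ht
      exact ht.comp (hφ₁.tendsto_atTop.comp hφ₂.tendsto_atTop)
    · filter_upwards [ha₁] with t ht
      exact ht.comp hφ₂.tendsto_atTop
    · exact ha₂
  have hven : Tendsto (fun k => ven (X (ψ k)) (X (ψ k))) atTop (𝓝 (e₀ + e₁ + e₂)) := by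
    have hd : ∀ k, ven (X (ψ k)) (X (ψ k)) = en (X (ψ k) 0) (X (ψ k) 0)
        + en (X (ψ k) 1) (X (ψ k) 1) + en (X (ψ k) 2) (X (ψ k) 2) := fun k => ven_eq _ _
    simp only [hd]
    rw [hψ]
    exact ((he₀.comp (hφ₁.tendsto_atTop.comp hφ₂.tendsto_atTop)).add
      (he₁.comp hφ₂.tendsto_atTop)).add he₂
  have hlim : e₀ + e₁ + e₂ ≤ Emin D := by
    have h2 : Tendsto (fun k => Emin D + 1 / (((ψ k : ℕ) : ℝ) + 1)) atTop (𝓝 (Emin D + 0)) :=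
      tendsto_const_nhds.add
        ((tendsto_one_div_add_atTop_nhds_zero_nat (𝕜 := ℝ)).comp hψt)
    rw [add_zero] at h2
    exact le_of_tendsto_of_tendsto' hven h2 fun k => hXe (ψ k)
  have hgv : ven g g ≤ Emin D := by
    rw [ven_eq, hgdef]
    exact (add_le_add (add_le_add hle₀ hle₁) hle₂).trans hlim
  have hadm : Adm D g := by
    refine ⟨hgfe, fun i => ?_, ?_⟩
    · filter_upwards [hae i] with t ht hZ
      have h3 : (fun k => X (ψ k) i t) = fun _ => (0 : ℝ) := funext fun k => (hX _).zeroE i t hZ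
      rw [h3] at ht
      exact tendsto_nhds_unique ht tendsto_const_nhds
    · have h4 : ∀ᵐ t ∂cm, ∀ k, t ∈ D.H → ∑ i, X (ψ k) i t ^ 2 = 1 :=
        ae_all_iff.2 fun k => (hX (ψ k)).adm.one
      filter_upwards [h4, ae_all_iff.2 hae] with t ht hc hH
      have h5 : Tendsto (fun k => ∑ i, X (ψ k) i t ^ 2) atTop (𝓝 (∑ i, g i t ^ 2)) :=
        tendsto_finsetSum _ fun i _ => (hc i).pow 2
      have h6 : (fun k => ∑ i, X (ψ k) i t ^ 2) = fun _ => (1 : ℝ) := funext fun k => ht k hH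
      rw [h6] at h5
      exact tendsto_nhds_unique h5 tendsto_const_nhds
  obtain ⟨Z, hZ, hZg⟩ := hN D hT g hadm
  exact ⟨Z, hZ, fun Y hY => (hZg.trans hgv).trans (emin_le hY)⟩

end Pool.Agent.FBM
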