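import Pool.Agent.FBM.StmtB
import Pool.Agent.FBM.B0

/-!
# FBM, block B: free variations
-/

open MeasureTheory Set Filter Topology
open scoped Real

namespace Pool.Agent.FBM.BFREE

open Pool.Agent.FBM

theorem adm_update {D : Dat} {X : Fin 3 → ℝ → ℝ} (hX : Adm D X) (i : Fin 3) {g : ℝ → ℝ}
    (hg : FE g) (hz : Van (D.Z i) g) (hH : Van D.H g) (ε : ℝ) :
    Adm D (Function.update X i (fun t => X i t + ε * g t)) := by
  constructor
  · intro j
    by_cases hj : j = i
    · subst hj
      rw [Function.update_self]
      exact (hX.fe j).add (hg.smul ε)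
    · rw [Function.update_of_ne hj]
      exact hX.fe j
  · intro j
    by_cases hj : j = i
    · subst hj
      rw [Function.update_self]
      filter_upwards [hX.zero j, hz] with t h1 h2 ht
      rw [h1 ht, h2 ht, mul_zero, add_zero]
    · rw [Function.update_of_ne hj]
      exact hX.zero j
  · filter_upwards [hX.one, hH] with t h1 h2 ht
    have h3 : ∀ j, Function.update X i (fun t => X i t + ε * g t) j t = X j t := by
      intro j
      by_cases hj : j = i
      · subst hj
        rw [Function.update_self, h2 ht, mul_zero, add_zero]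
      · rw [Function.update_of_ne hj]
    simp only [h3]
    exact h1 ht

end Pool.Agent.FBM.BFREE

namespace Pool.Agent.FBM

theorem t_B_free : Stmt_B_free := by
  intro D X hX i g hg hz hH
  refine eq_zero_of_quad (a := en (X i) g) (b := en g g) fun ε => ?_
  have h1 := hX.min _ (BFREE.adm_update hX.oct.adm i hg hz hH ε)
  rw [ven_update, en_add_self (hX.oct.fe i) (hg.smul ε), en_smul_right, en_smul_left,
    en_smul_right] at h1
  linarith [h1]

theorem t_B_emin : Stmt_B_emin := by
  intro D X hX
  unfold Emin
  have hne : ({r : ℝ | ∃ X, Adm D X ∧ ven X X = r}).Nonempty := ⟨_, X, hX.oct.adm, rfl⟩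
  refine le_antisymm (le_csInf hne ?_) (csInf_le ⟨0, ?_⟩ ⟨X, hX.oct.adm, rfl⟩)
  · rintro r ⟨Y, hY, rfl⟩
    exact hX.min Y hY
  · rintro r ⟨Y, hY, rfl⟩
    exact ven_self_nonneg Y

end Pool.Agent.FBM
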