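import Pool.Agent.FBM.B0

/-!
# Block B, LFO: the explicit formula of the functional `L`
-/

open MeasureTheory Set Filter Topology
open scoped Real

namespace Pool.Agent.FBM

namespace BLFO

/-- the kernel `J s t (1 - X_s . X_t)` -/
noncomputable def K (X : Fin 3 → ℝ → ℝ) (p : ℝ × ℝ) : ℝ :=
  J p.1 p.2 * (1 - ∑ i, X i p.1 * X i p.2)

lemma K_swap (X : Fin 3 → ℝ → ℝ) (p : ℝ × ℝ) : K X (p.2, p.1) = K X p := by
  unfold K
  simp only
  rw [J_symm]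
  congr 2
  exact Finset.sum_congr rfl fun i _ => mul_comm _ _

variable {D : Dat} {X : Fin 3 → ℝ → ℝ} {ψ : ℝ → ℝ}

lemma K_meas (h : Oct D X) : Measurable (K X) :=
  measurable_J.mul (measurable_const.sub (measurable_dot h))

lemma K_nonneg (h : Oct D X) (p : ℝ × ℝ) : 0 ≤ K X p := h.kernel_nonneg p.1 p.2

lemma psi_sq (h : Oct D X) (hv : Van D.Hᶜ ψ) : ∀ᵐ t ∂cm, ψ t * ∑ j, X j t ^ 2 = ψ t := by
  filter_upwards [hv, h.adm.one] with t h1 h2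
  by_cases ht : t ∈ D.H
  · rw [h2 ht, mul_one]
  · rw [h1 ht, zero_mul]

lemma key_ae (h : Oct D X) (hv : Van D.Hᶜ ψ) : ∀ᵐ p : ℝ × ℝ ∂cm2,
    ∑ j, J p.1 p.2 * ((X j p.1 - X j p.2) * (ψ p.1 * X j p.1 - ψ p.2 * X j p.2)) =
      K X p * (ψ p.1 + ψ p.2) := by
  filter_upwards [ae_cm2_of_ae (psi_sq h hv)] with p hp
  obtain ⟨h1, h2⟩ := hp
  unfold K
  rw [← Finset.mul_sum]
  have e : ∑ j, (X j p.1 - X j p.2) * (ψ p.1 * X j p.1 - ψ p.2 * X j p.2) =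
      ψ p.1 * ∑ j, X j p.1 ^ 2 + ψ p.2 * ∑ j, X j p.2 ^ 2 -
        (ψ p.1 + ψ p.2) * ∑ j, X j p.1 * X j p.2 := by
    rw [Finset.mul_sum, Finset.mul_sum, Finset.mul_sum, ← Finset.sum_add_distrib,
      ← Finset.sum_sub_distrib]
    exact Finset.sum_congr rfl fun j _ => by ring
  rw [e, h1, h2]
  ring

lemma sum_int (h : Oct D X) (hψ : FE ψ) (hv : Van D.Hᶜ ψ) :
    Integrable (fun p : ℝ × ℝ => K X p * (ψ p.1 + ψ p.2)) cm2 := by
  have h1 : Integrable (fun p : ℝ × ℝ =>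
      ∑ j, J p.1 p.2 * ((X j p.1 - X j p.2) * (ψ p.1 * X j p.1 - ψ p.2 * X j p.2))) cm2 :=
    integrable_finsetSum _ fun j _ => (h.fe j).int (hψ.mul (h.fe j))
  exact h1.congr (key_ae h hv)

lemma int_K (h : Oct D X) (hψ : FE ψ) (hv : Van D.Hᶜ ψ) :
    Integrable (fun p : ℝ × ℝ => K X p * ψ p.1) cm2 := by
  refine (sum_int h hψ.abs hv.abs).mono' ?_ ?_
  · exact ((K_meas h).mul (hψ.meas.comp measurable_fst)).aestronglyMeasurable
  · refine Eventually.of_forall fun p => ?_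
    rw [Real.norm_eq_abs, abs_mul, abs_of_nonneg (K_nonneg h p)]
    exact mul_le_mul_of_nonneg_left (by linarith [abs_nonneg (ψ p.2)]) (K_nonneg h p)

lemma int_K' (h : Oct D X) (hψ : FE ψ) (hv : Van D.Hᶜ ψ) :
    Integrable (fun p : ℝ × ℝ => K X p * ψ p.2) cm2 := by
  have h1 := integrable_cm2_swap (int_K h hψ hv)
  refine h1.congr (Eventually.of_forall fun p => ?_)
  simp only
  rw [K_swap]

lemma LL_eq (h : Oct D X) (hψ : FE ψ) (hv : Van D.Hᶜ ψ) :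
    LL X ψ = (1 / π) * ∫ p, K X p * ψ p.1 ∂cm2 := by
  unfold LL en
  rw [← Finset.mul_sum, ← integral_finsetSum _ fun j _ => (h.fe j).int (hψ.mul (h.fe j)),
    integral_congr_ae (key_ae h hv)]
  have e1 : ∫ p : ℝ × ℝ, K X p * (ψ p.1 + ψ p.2) ∂cm2 =
      ∫ p : ℝ × ℝ, K X p * ψ p.1 ∂cm2 + ∫ p : ℝ × ℝ, K X p * ψ p.2 ∂cm2 := by
    rw [← integral_add (int_K h hψ hv) (int_K' h hψ hv)]
    exact integral_congr_ae (Eventually.of_forall fun p => by simp only; ring)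
  have e2 : ∫ p : ℝ × ℝ, K X p * ψ p.2 ∂cm2 = ∫ p : ℝ × ℝ, K X p * ψ p.1 ∂cm2 := by
    rw [← integral_cm2_swap (fun p => K X p * ψ p.1)]
    exact integral_congr_ae (Eventually.of_forall fun p => by simp only; rw [K_swap])
  rw [e1, e2]
  have hpi : (π : ℝ) ≠ 0 := Real.pi_ne_zero
  field_simp
  ring

lemma lam_ae (D : Dat) (X : Fin 3 → ℝ → ℝ) (hv : Van D.Hᶜ ψ) : ∀ᵐ t ∂cm,
    (1 / π) * ∫ u, K X (t, u) * ψ t ∂cm = lamX D X t * ψ t := by
  filter_upwards [hv] with t h1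
  by_cases ht : t ∈ D.H
  · unfold lamX
    rw [indicator_of_mem ht, integral_mul_const, ← mul_assoc]
    rfl
  · rw [h1 ht]
    simp

end BLFO

open BLFO in
theorem t_B_lfo : Stmt_B_lfo := by
  intro D _ X h ψ hψ hv
  have hi : Integrable (fun p : ℝ × ℝ => K X p * ψ p.1) (cm.prod cm) := int_K h hψ hv
  have h1 : Integrable (fun t => ∫ u, K X (t, u) * ψ t ∂cm) cm := hi.integral_prod_left
  refine ⟨int_K h hψ hv, (h1.const_mul (1 / π)).congr (lam_ae D X hv), ?_⟩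
  rw [LL_eq h hψ hv]
  have h2 : ∫ p : ℝ × ℝ, K X p * ψ p.1 ∂cm2 = ∫ t, ∫ u, K X (t, u) * ψ t ∂cm ∂cm :=
    integral_prod _ hi
  rw [h2, ← integral_const_mul]
  exact integral_congr_ae (lam_ae D X hv)

end Pool.Agent.FBM
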