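import Pool.Agent.FBM.StmtB
import Pool.Agent.FBM.B0

/-!
# BLIN: integrability of the multiplier
-/

open MeasureTheory Set Filter Topology
open scoped Real

namespace Pool.Agent.FBM

namespace BLIN

/-- energy of a product of functions bounded by one -/
theorem en_mul_le {u v : ℝ → ℝ} (hu : FE u) (hv : FE v) (h1 : ∀ t, |u t| ≤ 1)
    (h2 : ∀ t, |v t| ≤ 1) :
    en (fun t => u t * v t) (fun t => u t * v t) ≤ 2 * en u u + 2 * en v v := by
  have h3 : 2 * en u u + 2 * en v v = (1 / (2 * π)) *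
      ∫ p, (2 * (J p.1 p.2 * ((u p.1 - u p.2) * (u p.1 - u p.2))) +
        2 * (J p.1 p.2 * ((v p.1 - v p.2) * (v p.1 - v p.2)))) ∂cm2 := by
    rw [integral_add ((hu.int hu).const_mul 2) ((hv.int hv).const_mul 2), integral_const_mul,
      integral_const_mul]
    unfold en
    ring
  rw [h3]
  unfold en
  refine mul_le_mul_of_nonneg_left ?_ (by positivity)
  refine integral_mono_of_nonneg (Eventually.of_forall fun p =>
    mul_nonneg (J_nonneg _ _) (mul_self_nonneg _))
    (((hu.int hu).const_mul 2).add ((hv.int hv).const_mul 2)) (Eventually.of_forall fun p => ?_)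
  change J p.1 p.2 * ((u p.1 * v p.1 - u p.2 * v p.2) * (u p.1 * v p.1 - u p.2 * v p.2)) ≤
    2 * (J p.1 p.2 * ((u p.1 - u p.2) * (u p.1 - u p.2))) +
      2 * (J p.1 p.2 * ((v p.1 - v p.2) * (v p.1 - v p.2)))
  have e : 2 * (J p.1 p.2 * ((u p.1 - u p.2) * (u p.1 - u p.2))) +
      2 * (J p.1 p.2 * ((v p.1 - v p.2) * (v p.1 - v p.2))) =
      J p.1 p.2 * (2 * ((u p.1 - u p.2) ^ 2 + (v p.1 - v p.2) ^ 2)) := by ring
  rw [e]
  refine mul_le_mul_of_nonneg_left ?_ (J_nonneg _ _)
  have h4 : v p.1 ^ 2 ≤ 1 := by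
    rw [← sq_abs]
    exact pow_le_one₀ (abs_nonneg _) (h2 _)
  have h5 : u p.2 ^ 2 ≤ 1 := by
    rw [← sq_abs]
    exact pow_le_one₀ (abs_nonneg _) (h1 _)
  have e2 : u p.1 * v p.1 - u p.2 * v p.2 = (u p.1 - u p.2) * v p.1 + u p.2 * (v p.1 - v p.2) := by
    ring
  rw [e2]
  have h6 : ((u p.1 - u p.2) * v p.1 + u p.2 * (v p.1 - v p.2)) *
      ((u p.1 - u p.2) * v p.1 + u p.2 * (v p.1 - v p.2)) ≤
      2 * ((u p.1 - u p.2) ^ 2 * v p.1 ^ 2 + u p.2 ^ 2 * (v p.1 - v p.2) ^ 2) := by
    nlinarith [sq_nonneg ((u p.1 - u p.2) * v p.1 - u p.2 * (v p.1 - v p.2))]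
  have h7 := mul_le_mul_of_nonneg_left h4 (sq_nonneg (u p.1 - u p.2))
  have h8 := mul_le_mul_of_nonneg_right h5 (sq_nonneg (v p.1 - v p.2))
  linarith

/-- convergence of the energies `en (X j) (χ_k X_j)` -/
theorem tendsto_cut (hW : Stmt_A_weak) {x : ℝ → ℝ} (hx : FE x) (hx1 : ∀ t, |x t| ≤ 1)
    {χ : ℕ → ℝ → ℝ} (hχ : ∀ k, FE (χ k)) (h01 : ∀ k t, 0 ≤ χ k t ∧ χ k t ≤ 1)
    (hen : Tendsto (fun k => en (χ k) (χ k)) atTop (𝓝 0))
    (hae : ∀ᵐ t ∂cm, Tendsto (fun k => χ k t) atTop (𝓝 1)) {g : ℝ → ℝ} (hg : FE g) :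
    Tendsto (fun k => en g (fun t => χ k t * x t)) atTop (𝓝 (en g x)) := by
  obtain ⟨K, hK⟩ := hen.bddAbove_range
  have hb : ∀ k t, |χ k t| ≤ 1 := fun k t => by
    rw [abs_of_nonneg (h01 k t).1]
    exact (h01 k t).2
  have h1 := hW (fun k t => χ k t * x t) x 1 (2 * K + 2 * en x x) (fun k => (hχ k).mul hx)
    (fun k t => by
      rw [abs_mul]
      exact mul_le_one₀ (hb k t) (abs_nonneg _) (hx1 t))
    (fun k => by
      have h2 := en_mul_le (hχ k) hx (hb k) hx1
      have h3 : en (χ k) (χ k) ≤ K := hK ⟨k, rfl⟩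
      linarith) hx
    (by
      filter_upwards [hae] with t ht
      have h4 := ht.mul_const (x t)
      rwa [one_mul] at h4) g hg
  rw [en_comm x g] at h1
  refine h1.congr fun k => ?_
  rw [en_comm]

end BLIN

/-- Integrability of the multiplier. -/
theorem t_B_lin (hW : Stmt_A_weak) (hC : Stmt_A_cut) (hF : Stmt_B_free) (hL : Stmt_B_lfo)
    (hM : Stmt_B_mea) : Stmt_B_lin := by
  intro D hD X hX
  have hO := hX.oct
  obtain ⟨χ, hχ, h01, hen, hae, hcut⟩ := hC 1 (fun _ => D.H) (fun _ => hD.tH)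
  obtain ⟨⟨hlm, hlp, hl0⟩, -⟩ := hM D hD X hO
  have hψ : ∀ k, FE (D.H.indicator (χ k)) := by
    intro k
    have h1 := hcut k 0 (fun _ => 1) (FE.const 1)
    have h2 : (D.H.indicator fun t => 1 * χ k t) = D.H.indicator (χ k) := by
      congr 1
      funext t
      rw [one_mul]
    rwa [h2] at h1
  have hψv : ∀ k, Van D.Hᶜ (D.H.indicator (χ k)) := fun k => van_indicator _ _
  have hL1 : ∀ k, Integrable (fun t => lamX D X t * D.H.indicator (χ k) t) cm := fun k =>
    (hL D hD X hO _ (hψ k) (hψv k)).2.1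
  have hL2 : ∀ k, LL X (D.H.indicator (χ k)) = ∫ t, lamX D X t * D.H.indicator (χ k) t ∂cm :=
    fun k => (hL D hD X hO _ (hψ k) (hψv k)).2.2
  -- replace the indicator by the cutoff
  have h3 : ∀ k j, en (X j) (fun t => D.H.indicator (χ k) t * X j t) =
      en (X j) (fun t => χ k t * X j t) := by
    intro k j
    have f1 : FE (fun t => χ k t * X j t) := (hχ k).mul (hO.fe j)
    have f2 : FE (fun t => D.H.indicator (χ k) t * X j t) := (hψ k).mul (hO.fe j)
    have h4 := hF D X hX j (fun t => χ k t * X j t - D.H.indicator (χ k) t * X j t)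
      (f1.sub f2) (((hO.van j).mul_left _).sub ((hO.van j).mul_left _))
      (Eventually.of_forall fun t ht => by
        change χ k t * X j t - D.H.indicator (χ k) t * X j t = 0
        rw [indicator_of_mem ht, sub_self])
    rw [en_sub_right (hO.fe j) f1 f2] at h4
    linarith
  have h5 : Tendsto (fun k => ∫ t, lamX D X t * D.H.indicator (χ k) t ∂cm) atTop
      (𝓝 (ven X X)) := by
    have h6 : ∀ k, ∑ j, en (X j) (fun t => χ k t * X j t) =
        ∫ t, lamX D X t * D.H.indicator (χ k) t ∂cm := by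
      intro k
      rw [← hL2 k, LL]
      exact Finset.sum_congr rfl fun j _ => (h3 k j).symm
    refine Tendsto.congr h6 ?_
    unfold ven
    exact tendsto_finsetSum _ fun j _ =>
      BLIN.tendsto_cut hW (hO.fe j) (hO.abs_le j) hχ h01 hen hae (hO.fe j)
  have hlim : ∀ᵐ t ∂cm, Tendsto (fun k => lamX D X t * D.H.indicator (χ k) t) atTop
      (𝓝 (lamX D X t)) := by
    filter_upwards [hae] with t ht
    by_cases hH : t ∈ D.H
    · have h7 := ht.const_mul (lamX D X t)
      rw [mul_one] at h7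
      refine h7.congr fun k => ?_
      rw [indicator_of_mem hH]
    · have h8 : lamX D X t = 0 := indicator_of_notMem hH _
      rw [h8]
      simp only [zero_mul]
      exact tendsto_const_nhds
  have hnn : ∀ k t, 0 ≤ lamX D X t * D.H.indicator (χ k) t := fun k t =>
    mul_nonneg (hl0 t) (indicator_nonneg (fun s _ => (h01 k s).1) t)
  have hint : Integrable (lamX D X) cm := by
    rw [← lintegral_ofReal_ne_top_iff_integrable hlm.aestronglyMeasurable
      (Eventually.of_forall hl0)]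
    have h9 : ∫⁻ t, ENNReal.ofReal (lamX D X t) ∂cm =
        ∫⁻ t, liminf (fun k => ENNReal.ofReal (lamX D X t * D.H.indicator (χ k) t)) atTop ∂cm := by
      refine lintegral_congr_ae ?_
      filter_upwards [hlim] with t ht
      exact ((ENNReal.continuous_ofReal.tendsto _).comp ht).liminf_eq.symm
    rw [h9]
    refine ne_top_of_le_ne_top ?_ (lintegral_liminf_le fun k =>
      (hlm.mul (hψ k).meas).ennreal_ofReal)
    have h10 : (fun k => ∫⁻ t, ENNReal.ofReal (lamX D X t * D.H.indicator (χ k) t) ∂cm) =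
        fun k => ENNReal.ofReal (∫ t, lamX D X t * D.H.indicator (χ k) t ∂cm) := by
      funext k
      rw [ofReal_integral_eq_lintegral_ofReal (hL1 k) (Eventually.of_forall (hnn k))]
    have h11 : liminf (fun k => ∫⁻ t, ENNReal.ofReal (lamX D X t * D.H.indicator (χ k) t) ∂cm)
        atTop = ENNReal.ofReal (ven X X) := by
      rw [h10]
      exact ((ENNReal.continuous_ofReal.tendsto _).comp h5).liminf_eq
    rw [h11]
    exact ENNReal.ofReal_ne_top
  refine ⟨hint, ?_⟩
  have h12 : Tendsto (fun k => ∫ t, lamX D X t * D.H.indicator (χ k) t ∂cm) atTop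
      (𝓝 (∫ t, lamX D X t ∂cm)) := by
    refine tendsto_integral_of_dominated_convergence (lamX D X)
      (fun k => (hL1 k).aestronglyMeasurable) hint (fun k => Eventually.of_forall fun t => ?_) hlim
    rw [Real.norm_eq_abs, abs_of_nonneg (hnn k t)]
    refine mul_le_of_le_one_right (hl0 t) ?_
    by_cases hH : t ∈ D.H
    · rw [indicator_of_mem hH]
      exact (h01 k t).2
    · rw [indicator_of_notMem hH]
      exact zero_le_one
  exact tendsto_nhds_unique h12 h5

end Pool.Agent.FBM
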