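import Pool.Agent.FBM.StmtB
import Pool.Agent.FBM.B0

/-!
# FBM, block B, LPO: positivity of the multiplier
-/

open MeasureTheory Set Filter Topology
open scoped Real

namespace Pool.Agent.FBM

namespace BLPO

/-- a map into the unit ball with `X_s . X_t = 1` for fixed `s` and almost all `t` has energy
zero -/
lemma ven_zero {D : Dat} {X : Fin 3 → ℝ → ℝ} (hX : Oct D X) {s : ℝ}
    (h : ∀ᵐ t ∂cm, ∑ i, X i s * X i t = 1) : ven X X = 0 := by
  have key : ∀ i, X i =ᵐ[cm] fun _ => X i s := by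
    intro i
    filter_upwards [h] with t ht
    have h1 := hX.le_one s
    have h2 := hX.le_one t
    have h3 : ∑ j, (X j t - X j s) ^ 2 ≤ 0 := by
      have e : ∑ j, (X j t - X j s) ^ 2 =
          ∑ j, X j s ^ 2 + ∑ j, X j t ^ 2 - 2 * ∑ j, X j s * X j t := by
        rw [Finset.mul_sum, ← Finset.sum_add_distrib, ← Finset.sum_sub_distrib]
        exact Finset.sum_congr rfl fun j _ => by ring
      rw [e, ht]
      linarith
    have h4 : (X i t - X i s) ^ 2 ≤ 0 :=
      (Finset.single_le_sum (f := fun j => (X j t - X j s) ^ 2) (fun j _ => sq_nonneg _)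
        (Finset.mem_univ i)).trans h3
    have h5 : X i t - X i s = 0 := pow_eq_zero_iff two_ne_zero |>.1 (le_antisymm h4 (sq_nonneg _))
    linarith
  refine Finset.sum_eq_zero fun i _ => ?_
  rw [en_congr (key i) (key i)]
  exact en_const_left _ _

end BLPO

theorem t_B_lpo (hC : Stmt_A_cut) (hL : Stmt_B_lfo) : Stmt_B_lpo := by
  intro D hD X hX hpos
  obtain ⟨χ, -, -, -, hlim, hind⟩ := hC 1 (fun _ => D.H) (fun _ => hD.tH)
  have hψ : ∀ k, FE (D.H.indicator fun t => 1 * χ k t) := fun k => hind k 0 _ (FE.const 1)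
  have hint : ∀ k, ∀ᵐ s ∂cm, Integrable (fun t => J s t * (1 - ∑ i, X i s * X i t) *
      D.H.indicator (fun t => 1 * χ k t) s) cm := by
    intro k
    have h1 := (hL D hD X hX.oct _ (hψ k) (van_indicator _ _)).1
    unfold cm2 at h1
    exact h1.prod_right_ae
  have hJ : ∀ᵐ s ∂cm, ∀ᵐ t ∂cm, 1 / 4 ≤ J s t := by
    have h1 := cm2_J_ge
    unfold cm2 at h1
    exact Measure.ae_ae_of_ae_prod h1
  filter_upwards [ae_all_iff.2 hint, hlim, hJ] with s hs hls hJs hsH
  obtain ⟨k, hk⟩ := (hls.eventually (lt_mem_nhds one_pos : ∀ᶠ x in 𝓝 (1 : ℝ), 0 < x)).exists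
  have h2 : Integrable (fun t => J s t * (1 - ∑ i, X i s * X i t)) cm := by
    have h3 := (hs k).mul_const (χ k s)⁻¹
    refine h3.congr (Eventually.of_forall fun t => ?_)
    simp only [indicator_of_mem hsH, one_mul]
    rw [mul_assoc, mul_inv_cancel₀ hk.ne', mul_one]
  have h4 : ∀ t, 0 ≤ J s t * (1 - ∑ i, X i s * X i t) := fun t => hX.oct.kernel_nonneg s t
  have h5 : 0 < ∫ t, J s t * (1 - ∑ i, X i s * X i t) ∂cm := by
    refine lt_of_le_of_ne (integral_nonneg h4) fun h6 => ?_
    have h7 := (integral_eq_zero_iff_of_nonneg h4 h2).1 h6.symm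
    have h8 : ∀ᵐ t ∂cm, ∑ i, X i s * X i t = 1 := by
      filter_upwards [h7, hJs] with t ht hJt
      have h9 : J s t * (1 - ∑ i, X i s * X i t) = 0 := ht
      rcases mul_eq_zero.1 h9 with h | h
      · rw [h] at hJt
        norm_num at hJt
      · linarith
    exact hpos.ne' (BLPO.ven_zero hX.oct h8)
  rw [lamX, indicator_of_mem hsH]
  positivity

end Pool.Agent.FBM
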