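import Pool.Agent.FBM.B0

/-!
# FBM, block B: measurability, periodicity and signs (MEA)
-/

set_option autoImplicit false

open MeasureTheory Set Filter Topology
open scoped Real

namespace Pool.Agent.FBM

namespace BMEA

theorem meas_int {F : ℝ → ℝ → ℝ} (hF : Measurable fun p : ℝ × ℝ => F p.1 p.2) :
    Measurable fun t => ∫ u, F t u ∂cm := by
  have h : StronglyMeasurable (Function.uncurry F) := by
    have : Function.uncurry F = fun p : ℝ × ℝ => F p.1 p.2 := rfl
    rw [this]
    exact hF.stronglyMeasurable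
  exact (h.integral_prod_right (ν := cm)).measurable

theorem indicator_per {S : Set ℝ} {f : ℝ → ℝ} (hS : ∀ t, t + 2 * π ∈ S ↔ t ∈ S)
    (hf : ∀ t, f (t + 2 * π) = f t) : ∀ t, S.indicator f (t + 2 * π) = S.indicator f t := by
  intro t
  by_cases h : t ∈ S
  · rw [indicator_of_mem h, indicator_of_mem ((hS t).2 h), hf]
  · rw [indicator_of_notMem h, indicator_of_notMem fun h1 => h ((hS t).1 h1)]

section

variable {D : Dat} {X : Fin 3 → ℝ → ℝ}

theorem lam_meas (hD : D.Tm) (hX : Oct D X) : Measurable (lamX D X) := by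
  unfold lamX
  refine Measurable.indicator ?_ hD.tH.meas
  exact (meas_int (F := fun t u => J t u * (1 - ∑ i, X i t * X i u))
    (measurable_J.mul (measurable_const.sub (measurable_dot hX)))).const_mul _

theorem lam_per (hD : D.Tm) (hX : Oct D X) : ∀ t, lamX D X (t + 2 * π) = lamX D X t := by
  unfold lamX
  refine indicator_per hD.tH.per fun t => ?_
  have h : ∀ u, J (t + 2 * π) u * (1 - ∑ i, X i (t + 2 * π) * X i u) =
      J t u * (1 - ∑ i, X i t * X i u) := fun u => by
    rw [J_add_left]
    simp only [(hX.fe _).per t]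
  simp only [h]

theorem lam_nonneg (hX : Oct D X) (t : ℝ) : 0 ≤ lamX D X t := by
  unfold lamX
  refine indicator_nonneg (fun t _ => ?_) t
  exact mul_nonneg (by positivity) (integral_nonneg fun u => hX.kernel_nonneg t u)

theorem tx_meas (hD : D.Tm) (hX : Oct D X) (i : Fin 3) : Measurable (TX D X i) := by
  unfold TX
  refine Measurable.add (Measurable.indicator ?_ (hD.tZ i).meas)
    (Measurable.indicator ((lam_meas hD hX).mul (hX.fe i).meas) (hD.tZ i).meas.compl)
  exact ((meas_int (F := fun t u => J t u * X i u)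
    (measurable_J.mul ((hX.fe i).meas.comp measurable_snd))).const_mul _).neg

theorem tx_per (hD : D.Tm) (hX : Oct D X) (i : Fin 3) :
    ∀ t, TX D X i (t + 2 * π) = TX D X i t := by
  intro t
  unfold TX
  congr 1
  · refine indicator_per (hD.tZ i).per (fun t => ?_) t
    simp only [J_add_left]
  · refine indicator_per (fun t => not_congr ((hD.tZ i).per t)) (fun t => ?_) t
    rw [lam_per hD hX, (hX.fe i).per t]

theorem tx_mem (hX : Oct D X) (i : Fin 3) {t : ℝ} (ht : t ∈ D.Z i) : TX D X i t ≤ 0 := by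
  unfold TX
  have h1 : t ∉ (D.Z i)ᶜ := fun h => h ht
  rw [indicator_of_mem ht, indicator_of_notMem h1, add_zero, neg_nonpos]
  exact mul_nonneg (by positivity)
    (integral_nonneg fun u => mul_nonneg (J_nonneg t u) (hX.nonneg i u))

theorem tx_notMem (i : Fin 3) {t : ℝ} (ht : t ∉ D.Z i) : TX D X i t = lamX D X t * X i t := by
  unfold TX
  have h1 : t ∈ (D.Z i)ᶜ := ht
  rw [indicator_of_notMem ht, indicator_of_mem h1, zero_add]

end

end BMEA

theorem t_B_mea : Stmt_B_mea := fun _ hD _ hX =>
  ⟨⟨BMEA.lam_meas hD hX, BMEA.lam_per hD hX, BMEA.lam_nonneg hX⟩,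
    fun i => ⟨BMEA.tx_meas hD hX i, BMEA.tx_per hD hX i, fun _ ht => BMEA.tx_mem hX i ht,
      fun _ ht => BMEA.tx_notMem i ht⟩⟩

end Pool.Agent.FBM
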