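import Pool.Agent.FBM.B0

/-!
# Module BNRM: normalisation of admissible maps
-/

open MeasureTheory Set Filter Topology
open scoped Real

namespace Pool.Agent.FBM

namespace BNRM

/-- Euclidean norm -/
noncomputable def N (v : Fin 3 → ℝ) : ℝ := Real.sqrt (∑ i, v i ^ 2)

/-- absolute values, then radial projection onto the unit ball -/
noncomputable def P (v : Fin 3 → ℝ) (i : Fin 3) : ℝ := |v i| / max 1 (N v)

lemma N_nonneg (v : Fin 3 → ℝ) : 0 ≤ N v := Real.sqrt_nonneg _

lemma N_sq (v : Fin 3 → ℝ) : N v ^ 2 = ∑ i, v i ^ 2 :=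
  Real.sq_sqrt (Finset.sum_nonneg fun _ _ => sq_nonneg _)

lemma div_max (p : ℝ) (_ : 0 ≤ p) : p / max 1 p = min p 1 := by
  rcases le_total p 1 with h | h
  · rw [max_eq_left h, min_eq_left h, div_one]
  · rw [max_eq_right h, min_eq_right h, div_self (by linarith)]

lemma P_nonneg (v : Fin 3 → ℝ) (i : Fin 3) : 0 ≤ P v i :=
  div_nonneg (abs_nonneg _) (le_trans zero_le_one (le_max_left _ _))

lemma sum_P_sq (v : Fin 3 → ℝ) : ∑ i, P v i ^ 2 = (min (N v) 1) ^ 2 := by
  rw [← div_max _ (N_nonneg v), div_pow, N_sq, Finset.sum_div]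
  exact Finset.sum_congr rfl fun i _ => by rw [P, div_pow, sq_abs]

lemma sum_P_le (v : Fin 3 → ℝ) : ∑ i, P v i ^ 2 ≤ 1 := by
  rw [sum_P_sq]
  have h1 : 0 ≤ min (N v) 1 := le_min (N_nonneg v) zero_le_one
  have h2 : min (N v) 1 ≤ 1 := min_le_right _ _
  nlinarith

lemma sum_P_one {v : Fin 3 → ℝ} (h : ∑ i, v i ^ 2 = 1) : ∑ i, P v i ^ 2 = 1 := by
  rw [sum_P_sq, N, h, Real.sqrt_one, min_self, one_pow]

lemma P_zero {v : Fin 3 → ℝ} {i : Fin 3} (h : v i = 0) : P v i = 0 := by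
  rw [P, h, abs_zero, zero_div]

lemma P_le (v : Fin 3 → ℝ) (i : Fin 3) : |P v i| ≤ 1 := by
  have h1 := sum_P_le v
  have h2 : P v i ^ 2 ≤ ∑ j, P v j ^ 2 :=
    Finset.single_le_sum (f := fun j => P v j ^ 2) (fun j _ => sq_nonneg _) (Finset.mem_univ i)
  rw [abs_of_nonneg (P_nonneg v i)]
  nlinarith [P_nonneg v i]

/-- The radial projection is a contraction. -/
lemma P_lip (v w : Fin 3 → ℝ) : ∑ i, (P v i - P w i) ^ 2 ≤ ∑ i, (v i - w i) ^ 2 := by
  have h1 : ∑ i, (|v i| - |w i|) ^ 2 ≤ ∑ i, (v i - w i) ^ 2 := by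
    refine Finset.sum_le_sum fun i _ => ?_
    rw [← sq_abs (v i - w i), ← sq_abs (|v i| - |w i|)]
    exact pow_le_pow_left₀ (abs_nonneg _) (abs_abs_sub_abs_le_abs_sub _ _) 2
  refine le_trans ?_ h1
  set p := N v with hp
  set q := N w with hq
  set a := max 1 p with ha
  set b := max 1 q with hb
  set D := ∑ i, |v i| * |w i| with hD
  have ha1 : 1 ≤ a := le_max_left _ _
  have hb1 : 1 ≤ b := le_max_left _ _
  have hp2 : p ^ 2 = ∑ i, |v i| ^ 2 := by
    rw [hp, N_sq]
    exact Finset.sum_congr rfl fun i _ => (sq_abs _).symm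
  have hq2 : q ^ 2 = ∑ i, |w i| ^ 2 := by
    rw [hq, N_sq]
    exact Finset.sum_congr rfl fun i _ => (sq_abs _).symm
  have hDle : D ≤ p * q := by
    have := Real.sum_mul_le_sqrt_mul_sqrt Finset.univ (fun i => |v i|) (fun i => |w i|)
    rw [← hp2, ← hq2, Real.sqrt_sq (N_nonneg v), Real.sqrt_sq (N_nonneg w)] at this
    exact this
  have e1 : ∑ i, (P v i - P w i) ^ 2 = p ^ 2 / a ^ 2 + q ^ 2 / b ^ 2 - 2 * D / (a * b) := by
    rw [hp2, hq2, hD, Finset.mul_sum, Finset.sum_div, Finset.sum_div, Finset.sum_div,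
      ← Finset.sum_add_distrib, ← Finset.sum_sub_distrib]
    refine Finset.sum_congr rfl fun i _ => ?_
    simp only [P, ← hp, ← hq, ← ha, ← hb]
    have : a ≠ 0 := by linarith
    have : b ≠ 0 := by linarith
    field_simp
    ring
  have e2 : ∑ i, (|v i| - |w i|) ^ 2 = p ^ 2 + q ^ 2 - 2 * D := by
    rw [hp2, hq2, hD, Finset.mul_sum, ← Finset.sum_add_distrib, ← Finset.sum_sub_distrib]
    exact Finset.sum_congr rfl fun i _ => by ring
  have h2 : (p / a - q / b) ^ 2 ≤ (p - q) ^ 2 := by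
    rw [ha, hb, div_max p (N_nonneg v), div_max q (N_nonneg w), ← sq_abs (p - q),
      ← sq_abs (min p 1 - min q 1)]
    refine pow_le_pow_left₀ (abs_nonneg _) ?_ 2
    have := abs_min_sub_min_le_max p 1 q 1
    rwa [sub_self, abs_zero, max_eq_left (abs_nonneg _)] at this
  have h3 : 0 ≤ (p * q - D) * (1 - 1 / (a * b)) := by
    refine mul_nonneg (by linarith) ?_
    rw [sub_nonneg, div_le_one (by positivity)]
    nlinarith
  have e3 : p ^ 2 + q ^ 2 - 2 * D - (p ^ 2 / a ^ 2 + q ^ 2 / b ^ 2 - 2 * D / (a * b)) =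
      ((p - q) ^ 2 - (p / a - q / b) ^ 2) + 2 * ((p * q - D) * (1 - 1 / (a * b))) := by
    have : a ≠ 0 := by linarith
    have : b ≠ 0 := by linarith
    field_simp
    ring
  rw [e1, e2]
  linarith

/-- Comparison of the energies of triples. -/
theorem ven_mono {X Y : Fin 3 → ℝ → ℝ} (hX : ∀ i, FE (X i)) (hY : ∀ i, FE (Y i))
    (h : ∀ s t, ∑ i, (X i s - X i t) ^ 2 ≤ ∑ i, (Y i s - Y i t) ^ 2) : ven X X ≤ ven Y Y := by
  unfold ven en
  rw [← Finset.mul_sum, ← Finset.mul_sum, ← integral_finsetSum _ fun i _ => (hX i).int (hX i),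
    ← integral_finsetSum _ fun i _ => (hY i).int (hY i)]
  refine mul_le_mul_of_nonneg_left ?_ (by positivity)
  refine integral_mono (integrable_finsetSum _ fun i _ => (hX i).int (hX i))
    (integrable_finsetSum _ fun i _ => (hY i).int (hY i)) fun p => ?_
  dsimp only
  rw [← Finset.mul_sum, ← Finset.mul_sum]
  refine mul_le_mul_of_nonneg_left ?_ (J_nonneg _ _)
  simpa only [← pow_two] using h p.1 p.2

/-- Membership in `FE` by domination by a triple. -/
theorem fe_of_le {f : ℝ → ℝ} {Y : Fin 3 → ℝ → ℝ} (hm : Measurable f)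
    (hp : Function.Periodic f (2 * π)) (hb : ∃ C, ∀ t, |f t| ≤ C) (hY : ∀ i, FE (Y i))
    (h : ∀ s t, (f s - f t) ^ 2 ≤ ∑ i, (Y i s - Y i t) ^ 2) : FE f := by
  refine ⟨hm, hp, hb, ?_⟩
  refine (integrable_finsetSum Finset.univ fun i _ => (hY i).fin).mono' ?_ ?_
  · exact (measurable_J.mul (((hm.comp measurable_fst).sub
      (hm.comp measurable_snd)).pow_const 2)).aestronglyMeasurable
  · refine Eventually.of_forall fun p => ?_
    rw [Real.norm_eq_abs, abs_of_nonneg (mul_nonneg (J_nonneg _ _) (sq_nonneg _)),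
      ← Finset.mul_sum]
    exact mul_le_mul_of_nonneg_left (h p.1 p.2) (J_nonneg p.1 p.2)

end BNRM

open BNRM in
theorem t_B_nrm : Stmt_B_nrm := by
  intro D hD Y hY
  set W : Fin 3 → ℝ → ℝ := fun i t => P (fun j => Y j t) i with hW
  have hWm : ∀ i, Measurable (W i) := by
    intro i
    simp only [hW, P, N]
    have h1 : ∀ j, Measurable (Y j) := fun j => (hY.fe j).meas
    exact ((h1 i).abs).div (measurable_const.max
      (Real.continuous_sqrt.measurable.comp (Finset.measurable_sum _ fun j _ => (h1 j).pow_const 2)))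
  have hWp : ∀ i, Function.Periodic (W i) (2 * π) := by
    intro i t
    simp only [hW]
    congr 1
    funext j
    exact (hY.fe j).per t
  have hWle : ∀ s t, ∑ i, (W i s - W i t) ^ 2 ≤ ∑ i, (Y i s - Y i t) ^ 2 := fun s t => P_lip _ _
  have hWfe : ∀ i, FE (W i) := fun i => fe_of_le (hWm i) (hWp i) ⟨1, fun t => P_le _ i⟩ hY.fe
    fun s t => (Finset.single_le_sum (f := fun j => (W j s - W j t) ^ 2) (fun j _ => sq_nonneg _)
      (Finset.mem_univ i)).trans (hWle s t)
  set X : Fin 3 → ℝ → ℝ := fun i => (D.Z i)ᶜ.indicator (W i) with hX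
  have hXW : ∀ i, W i =ᵐ[cm] X i := by
    intro i
    filter_upwards [hY.zero i] with t ht
    by_cases hZ : t ∈ D.Z i
    · rw [hX]
      simp only
      rw [indicator_of_notMem (by simpa using hZ)]
      exact P_zero (ht hZ)
    · rw [hX]
      simp only
      rw [indicator_of_mem (by simpa using hZ)]
  have hXfe : ∀ i, FE (X i) := by
    intro i
    refine (hWfe i).congr ((hWm i).indicator (hD.tZ i).meas.compl) (fun t => ?_)
      ⟨1, fun t => ?_⟩ (hXW i)
    · have h1 : t + 2 * π ∈ (D.Z i)ᶜ ↔ t ∈ (D.Z i)ᶜ := not_congr ((hD.tZ i).per t)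
      by_cases hZ : t ∈ (D.Z i)ᶜ
      · show (D.Z i)ᶜ.indicator (W i) (t + 2 * π) = (D.Z i)ᶜ.indicator (W i) t
        rw [indicator_of_mem (h1.2 hZ), indicator_of_mem hZ, hWp i t]
      · show (D.Z i)ᶜ.indicator (W i) (t + 2 * π) = (D.Z i)ᶜ.indicator (W i) t
        rw [indicator_of_notMem (fun h => hZ (h1.1 h)), indicator_of_notMem hZ]
    · by_cases hZ : t ∈ D.Z i
      · simp [hX, hZ]
      · simp only [hX]
        rw [indicator_of_mem (by simpa using hZ)]
        exact P_le _ i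
  have hzE : ∀ i, ∀ t ∈ D.Z i, X i t = 0 := fun i t ht =>
    indicator_of_notMem (by simpa using ht) _
  have hle : ∀ i t, 0 ≤ X i t ∧ X i t ≤ W i t := by
    intro i t
    by_cases hZ : t ∈ D.Z i
    · rw [hzE i t hZ]
      exact ⟨le_rfl, P_nonneg _ i⟩
    · simp only [hX]
      rw [indicator_of_mem (by simpa using hZ)]
      exact ⟨P_nonneg _ i, le_rfl⟩
  refine ⟨X, ⟨⟨hXfe, fun i => Eventually.of_forall fun t ht => hzE i t ht, ?_⟩,
    fun i t => (hle i t).1, fun t => ?_, hzE⟩, ?_⟩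
  · filter_upwards [hY.one, hXW 0, hXW 1, hXW 2] with t ht h0 h1 h2 hH
    have := sum_P_one (ht hH)
    rw [Fin.sum_univ_three] at this ⊢
    rw [← h0, ← h1, ← h2]
    exact this
  · exact (Finset.sum_le_sum fun i _ => pow_le_pow_left₀ (hle i t).1 (hle i t).2 2).trans
      (sum_P_le _)
  · have : ven X X = ven W W := by
      unfold ven
      exact Finset.sum_congr rfl fun i _ => en_congr (hXW i).symm (hXW i).symm
    rw [this]
    exact ven_mono hWfe hY.fe hWle

end Pool.Agent.FBM
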