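import Pool.Agent.FBM.StmtB

/-!
# BPAE: the components are positive almost everywhere off `Z_i`
-/

open MeasureTheory Set Filter Topology
open scoped Real

namespace Pool.Agent.FBM

namespace BPAE

/-- The closure of a tame set adds only isolated points. -/
theorem local_null {S : Set ℝ} (hS : Tame S) (t : ℝ) :
    ∃ a b : ℝ, a < t ∧ t < b ∧ (closure S \ S) ∩ Ioo a b ⊆ {t} := by
  have hr : ∃ b, t < b ∧ ∀ s ∈ Ioo t b, s ∉ closure S \ S := by
    rcases hS.right t with h | h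
    · obtain ⟨b, hb, hsub⟩ := mem_nhdsGT_iff_exists_Ioo_subset.1 h
      exact ⟨b, hb, fun s hs hs2 => hs2.2 (hsub hs)⟩
    · obtain ⟨b, hb, hsub⟩ := mem_nhdsGT_iff_exists_Ioo_subset.1 h
      refine ⟨b, hb, fun s hs hs2 => ?_⟩
      obtain ⟨y, hy1, hy2⟩ := mem_closure_iff.1 hs2.1 (Ioo t b) isOpen_Ioo hs
      exact hsub hy1 hy2
  have hl : ∃ a, a < t ∧ ∀ s ∈ Ioo a t, s ∉ closure S \ S := by
    rcases hS.left t with h | h
    · obtain ⟨a, ha, hsub⟩ := mem_nhdsLT_iff_exists_Ioo_subset.1 h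
      exact ⟨a, ha, fun s hs hs2 => hs2.2 (hsub hs)⟩
    · obtain ⟨a, ha, hsub⟩ := mem_nhdsLT_iff_exists_Ioo_subset.1 h
      refine ⟨a, ha, fun s hs hs2 => ?_⟩
      obtain ⟨y, hy1, hy2⟩ := mem_closure_iff.1 hs2.1 (Ioo a t) isOpen_Ioo hs
      exact hsub hy1 hy2
  obtain ⟨a, ha, hA⟩ := hl
  obtain ⟨b, hb, hB⟩ := hr
  refine ⟨a, b, ha, hb, ?_⟩
  rintro s ⟨hs, hs1, hs2⟩
  rcases lt_trichotomy s t with h | h | h
  · exact absurd hs (hA s ⟨hs1, h⟩)
  · exact h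
  · exact absurd hs (hB s ⟨h, hs2⟩)

theorem closure_diff_null {S : Set ℝ} (hS : Tame S) : volume (closure S \ S) = 0 := by
  refine measure_null_of_locally_null _ fun t _ => ?_
  obtain ⟨a, b, ha, hb, h⟩ := local_null hS t
  refine ⟨(closure S \ S) ∩ Ioo a b, ?_, ?_⟩
  · exact inter_mem self_mem_nhdsWithin (mem_nhdsWithin_of_mem_nhds (Ioo_mem_nhds ha hb))
  · exact measure_mono_null h (measure_singleton t)

end BPAE

theorem t_B_pae (hP : Stmt_B_pos) : Stmt_B_pae := by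
  intro D X lam T hTm hEL i hne
  have hloc := hP D X lam T hTm hEL i hne
  have hN1 : volume {t | t ∉ closure (D.Z i) ∧ ¬ 0 < X i t} = 0 := by
    refine measure_null_of_locally_null _ fun t ht => ?_
    obtain ⟨m, hm, δ, hδ, hae⟩ := hloc t ht.1
    refine ⟨{t | t ∉ closure (D.Z i) ∧ ¬ 0 < X i t} ∩ Ioo (t - δ) (t + δ), ?_, ?_⟩
    · exact inter_mem self_mem_nhdsWithin
        (mem_nhdsWithin_of_mem_nhds (Ioo_mem_nhds (by linarith) (by linarith)))
    · rw [ae_iff] at hae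
      refine measure_mono_null ?_ hae
      rintro s ⟨⟨-, hs2⟩, hs3, hs4⟩ hs5
      exact hs2 (lt_of_lt_of_le hm (hs5 (abs_lt.2 ⟨by linarith, by linarith⟩)))
  have hN2 := BPAE.closure_diff_null (hTm.tZ i)
  have hall : ∀ᵐ t, t ∉ D.Z i → 0 < X i t := by
    rw [ae_iff]
    refine measure_mono_null ?_ (measure_union_null hN1 hN2)
    intro t ht
    have ht' : ¬ (t ∉ D.Z i → 0 < X i t) := ht
    rw [Classical.not_imp] at ht'
    by_cases hc : t ∈ closure (D.Z i)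
    · exact Or.inr ⟨hc, ht'.1⟩
    · exact Or.inl ⟨hc, ht'.2⟩
  exact ae_restrict_of_ae hall

end Pool.Agent.FBM
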