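import Pool.Agent.FBM.StmtB

/-!
# FBM, block B, RED: reduction of the Euler-Lagrange equations to the functional `L`
-/

open MeasureTheory Set Filter Topology
open scoped Real

namespace Pool.Agent.FBM

theorem t_B_red (hF : Stmt_B_free) (hR : Stmt_B_rot) : Stmt_B_red := by
  intro D X hm i g hg hZ
  have hfe : ∀ j, FE (X j) := hm.oct.adm.fe
  have h1 : ∀ j, en (X i) (fun t => X j t * g t * X j t) =
      en (X j) (fun t => X i t * g t * X j t) := by
    intro j
    have h := hR D X hm i j (fun t => X j t * g t) ((hfe j).mul hg)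
      (by
        filter_upwards [hZ] with t ht h
        rw [ht h, mul_zero])
      (by
        refine Eventually.of_forall fun t h => ?_
        show X j t * g t = 0
        rw [hm.oct.zeroE j t h, zero_mul])
    rw [← h]
    congr 1
    funext t
    ring
  have h2 : en (X i) (fun t => g t - (X 0 t * g t * X 0 t + X 1 t * g t * X 1 t +
      X 2 t * g t * X 2 t)) = 0 := by
    refine hF D X hm i _ (hg.sub (((((hfe 0).mul hg).mul (hfe 0)).add
      (((hfe 1).mul hg).mul (hfe 1))).add (((hfe 2).mul hg).mul (hfe 2)))) ?_ ?_
    · filter_upwards [hZ] with t ht h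
      rw [ht h]
      ring
    · filter_upwards [hm.oct.adm.one] with t ht h
      have h3 := ht h
      rw [Fin.sum_univ_three] at h3
      linear_combination (-g t) * h3
  have f0 := ((hfe 0).mul hg).mul (hfe 0)
  have f1 := ((hfe 1).mul hg).mul (hfe 1)
  have f2 := ((hfe 2).mul hg).mul (hfe 2)
  rw [en_sub_right (hfe i) hg ((f0.add f1).add f2), en_add_right (hfe i) (f0.add f1) f2,
    en_add_right (hfe i) f0 f1, h1 0, h1 1, h1 2] at h2
  rw [LL, Fin.sum_univ_three]
  linarith

end Pool.Agent.FBM
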