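import Pool.Agent.FBM.B0

/-!
# BROT: rotations of minimisers (doc-string of `Stmt_B_rot`)
-/

open MeasureTheory Set Filter Topology
open scoped Real

namespace Pool.Agent.FBM

namespace BROT

/-- comparison with two energies -/
theorem en_le2 {f g h : ℝ → ℝ} (hg : FE g) (hh : FE h) {c d : ℝ}
    (H : ∀ s t, (f s - f t) ^ 2 ≤ c * (g s - g t) ^ 2 + d * (h s - h t) ^ 2) :
    en f f ≤ c * en g g + d * en h h := by
  have h1 : ∫ p, J p.1 p.2 * ((f p.1 - f p.2) * (f p.1 - f p.2)) ∂cm2 ≤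
      ∫ p, (c * (J p.1 p.2 * ((g p.1 - g p.2) * (g p.1 - g p.2))) +
        d * (J p.1 p.2 * ((h p.1 - h p.2) * (h p.1 - h p.2)))) ∂cm2 := by
    refine integral_mono_of_nonneg (Eventually.of_forall fun p =>
      mul_nonneg (J_nonneg _ _) (mul_self_nonneg _))
      (((hg.int hg).const_mul c).add ((hh.int hh).const_mul d)) (Eventually.of_forall fun p => ?_)
    have h2 := mul_le_mul_of_nonneg_left (H p.1 p.2) (J_nonneg p.1 p.2)
    dsimp only
    calc J p.1 p.2 * ((f p.1 - f p.2) * (f p.1 - f p.2)) = J p.1 p.2 * (f p.1 - f p.2) ^ 2 := by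
          ring
      _ ≤ _ := h2
      _ = _ := by ring
  rw [integral_add ((hg.int hg).const_mul c) ((hh.int hh).const_mul d), integral_const_mul,
    integral_const_mul] at h1
  unfold en
  have hπ : (0 : ℝ) ≤ 1 / (2 * π) := by positivity
  calc 1 / (2 * π) * ∫ p, J p.1 p.2 * ((f p.1 - f p.2) * (f p.1 - f p.2)) ∂cm2 ≤ _ :=
        mul_le_mul_of_nonneg_left h1 hπ
    _ = _ := by ring

/-- Young's inequality for the form -/
theorem young {f g : ℝ → ℝ} (hf : FE f) (hg : FE g) {c : ℝ} (hc : 0 < c) :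
    2 * en f g ≤ c * en f f + c⁻¹ * en g g := by
  have h := en_self_nonneg (fun t => f t + (-c⁻¹) * g t)
  rw [en_add_self hf (hg.smul _), en_smul_right, en_smul_left, en_smul_right] at h
  have h2 := mul_nonneg hc.le h
  have e : c * (en f f + 2 * (-c⁻¹ * en f g) + -c⁻¹ * (-c⁻¹ * en g g)) =
      c * en f f - 2 * en f g + c⁻¹ * en g g := by
    field_simp
    ring
  rw [e] at h2
  linarith

theorem young' {f g : ℝ → ℝ} (hf : FE f) (hg : FE g) {c : ℝ} (hc : 0 < c) :
    -(2 * en f g) ≤ c * en f f + c⁻¹ * en g g := by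
  have h := young hf hg.neg hc
  rw [en_neg_right, en_neg_left, en_neg_right] at h
  linarith

/-- energies of products with small functions of `ψ` -/
theorem comp {ψ x : ℝ → ℝ} (hψ : FE ψ) (hx : FE x) (hx1 : ∀ t, |x t| ≤ 1) {F : ℝ → ℝ}
    {ε M L : ℝ} (hM : ∀ t, |ψ t| ≤ M) (hF0 : F 0 = 0) (hFc : Continuous F)
    (hF : ∀ a b, |a| ≤ |ε| * M → |b| ≤ |ε| * M → |F a - F b| ≤ L * |a - b|) (hL : 0 ≤ L) :
    FE (fun t => F (ε * ψ t) * x t) ∧
    en (fun t => F (ε * ψ t) * x t) (fun t => F (ε * ψ t) * x t) ≤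
      2 * (L * ε) ^ 2 * en ψ ψ + 2 * (L * ε) ^ 2 * M ^ 2 * en x x := by
  have hM0 : 0 ≤ M := (abs_nonneg _).trans (hM 0)
  have hb : ∀ t, |ε * ψ t| ≤ |ε| * M := fun t => by
    rw [abs_mul]
    exact mul_le_mul_of_nonneg_left (hM t) (abs_nonneg _)
  have h1 : ∀ t, |F (ε * ψ t)| ≤ L * (|ε| * M) := fun t => by
    have h := hF (ε * ψ t) 0 (hb t) (by rw [abs_zero]; positivity)
    rw [hF0, sub_zero, sub_zero] at h
    exact h.trans (mul_le_mul_of_nonneg_left (hb t) hL)
  have h2 : ∀ s t, |F (ε * ψ s) - F (ε * ψ t)| ≤ L * (|ε| * |ψ s - ψ t|) := fun s t => by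
    have h := hF (ε * ψ s) (ε * ψ t) (hb s) (hb t)
    rw [← mul_sub, abs_mul] at h
    exact h
  have key : ∀ s t, (F (ε * ψ s) * x s - F (ε * ψ t) * x t) ^ 2 ≤
      2 * (L * ε) ^ 2 * (ψ s - ψ t) ^ 2 + 2 * (L * ε) ^ 2 * M ^ 2 * (x s - x t) ^ 2 := by
    intro s t
    have e : F (ε * ψ s) * x s - F (ε * ψ t) * x t =
        (F (ε * ψ s) - F (ε * ψ t)) * x s + F (ε * ψ t) * (x s - x t) := by ring
    have e1 : ((F (ε * ψ s) - F (ε * ψ t)) * x s) ^ 2 ≤ (L * ε) ^ 2 * (ψ s - ψ t) ^ 2 := by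
      have h3 : |(F (ε * ψ s) - F (ε * ψ t)) * x s| ≤ L * (|ε| * |ψ s - ψ t|) * 1 := by
        rw [abs_mul]
        exact mul_le_mul (h2 s t) (hx1 s) (abs_nonneg _) (by positivity)
      calc ((F (ε * ψ s) - F (ε * ψ t)) * x s) ^ 2
          = |(F (ε * ψ s) - F (ε * ψ t)) * x s| ^ 2 := (sq_abs _).symm
        _ ≤ (L * (|ε| * |ψ s - ψ t|) * 1) ^ 2 := pow_le_pow_left₀ (abs_nonneg _) h3 2
        _ = L ^ 2 * (|ε| ^ 2 * |ψ s - ψ t| ^ 2) := by ring
        _ = (L * ε) ^ 2 * (ψ s - ψ t) ^ 2 := by rw [sq_abs, sq_abs]; ring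
    have e2 : (F (ε * ψ t) * (x s - x t)) ^ 2 ≤ (L * ε) ^ 2 * M ^ 2 * (x s - x t) ^ 2 := by
      have h3 : F (ε * ψ t) ^ 2 ≤ (L * ε) ^ 2 * M ^ 2 := by
        calc F (ε * ψ t) ^ 2 = |F (ε * ψ t)| ^ 2 := (sq_abs _).symm
          _ ≤ (L * (|ε| * M)) ^ 2 := pow_le_pow_left₀ (abs_nonneg _) (h1 t) 2
          _ = L ^ 2 * (|ε| ^ 2 * M ^ 2) := by ring
          _ = (L * ε) ^ 2 * M ^ 2 := by rw [sq_abs]; ring
      rw [mul_pow]
      exact mul_le_mul_of_nonneg_right h3 (sq_nonneg _)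
    rw [e]
    nlinarith [sq_nonneg ((F (ε * ψ s) - F (ε * ψ t)) * x s - F (ε * ψ t) * (x s - x t))]
  refine ⟨FE.of_le (g1 := ψ) (g2 := x) ?_ ?_ ?_ hψ hx (2 * (L * ε) ^ 2 * (1 + M ^ 2)) ?_,
    en_le2 hψ hx key⟩
  · exact (hFc.measurable.comp (hψ.meas.const_mul ε)).mul hx.meas
  · intro t
    simp only [hψ.per t, hx.per t]
  · refine ⟨L * (|ε| * M) * 1, fun t => ?_⟩
    rw [abs_mul]
    exact mul_le_mul (h1 t) (hx1 t) (abs_nonneg _) (by positivity)
  · intro s t
    refine (key s t).trans ?_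
    have h3 : 0 ≤ 2 * (L * ε) ^ 2 * M ^ 2 * (ψ s - ψ t) ^ 2 := by positivity
    have h4 : 0 ≤ 2 * (L * ε) ^ 2 * (x s - x t) ^ 2 := by positivity
    nlinarith

theorem lip_of_deriv {F F' : ℝ → ℝ} (hd : ∀ x, HasDerivAt F (F' x) x) {r L : ℝ}
    (hb : ∀ x, |x| ≤ r → |F' x| ≤ L) : ∀ a b, |a| ≤ r → |b| ≤ r → |F a - F b| ≤ L * |a - b| := by
  intro a b ha hb'
  have h := Convex.norm_image_sub_le_of_norm_hasDerivWithin_le (f := F) (f' := F') (C := L)
    (s := Icc (-r) r) (x := b) (y := a) (fun x _ => (hd x).hasDerivWithinAt)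
    (fun x hx => by rw [Real.norm_eq_abs]; exact hb x (abs_le.2 hx)) (convex_Icc _ _)
    (abs_le.1 hb') (abs_le.1 ha)
  rw [Real.norm_eq_abs, Real.norm_eq_abs] at h
  exact h

theorem sq_sub (a b c d : ℝ) : (a - b - (c - d)) ^ 2 ≤ 2 * (a - c) ^ 2 + 2 * (b - d) ^ 2 := by
  nlinarith [sq_nonneg ((a - c) + (b - d))]

theorem sq_add (a b c d : ℝ) : (a + b - (c + d)) ^ 2 ≤ 2 * (a - c) ^ 2 + 2 * (b - d) ^ 2 := by
  nlinarith [sq_nonneg ((a - c) - (b - d))]

theorem sum_update (X : Fin 3 → ℝ → ℝ) (i : Fin 3) (g : ℝ → ℝ) (t : ℝ) :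
    ∑ k, (Function.update X i g) k t ^ 2 = ∑ k, X k t ^ 2 - X i t ^ 2 + g t ^ 2 := by
  rw [← Finset.add_sum_erase _ _ (Finset.mem_univ i),
    ← Finset.add_sum_erase _ (fun j => X j t ^ 2) (Finset.mem_univ i)]
  have h1 : ∑ j ∈ Finset.univ.erase i, (Function.update X i g j) t ^ 2 =
      ∑ j ∈ Finset.univ.erase i, X j t ^ 2 :=
    Finset.sum_congr rfl fun j hj => by rw [Function.update_of_ne (Finset.ne_of_mem_erase hj)]
  rw [h1, Function.update_self]
  ring

end BROT

open BROT in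
theorem t_B_rot : Stmt_B_rot := by
  intro D X hX i j ψ hψ hvi hvj
  rcases eq_or_ne i j with hij | hij
  · subst hij
    rfl
  have hO := hX.oct
  have hi := hO.fe i
  have hj := hO.fe j
  have hi1 := hO.abs_le i
  have hj1 := hO.abs_le j
  obtain ⟨M, hM⟩ := hψ.bdd
  have hM0 : 0 ≤ M := (abs_nonneg _).trans (hM 0)
  -- the functions
  have hdc : ∀ x, HasDerivAt (fun x => Real.cos x - 1) (-Real.sin x) x := fun x =>
    (Real.hasDerivAt_cos x).sub_const 1
  have hds : ∀ x, HasDerivAt (fun x => Real.sin x - x) (Real.cos x - 1) x := fun x =>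
    (Real.hasDerivAt_sin x).sub (hasDerivAt_id x)
  have hcc : Continuous (fun x => Real.cos x - 1) := Real.continuous_cos.sub continuous_const
  have hcs : Continuous (fun x => Real.sin x - x) := Real.continuous_sin.sub continuous_id
  have hc0 : Real.cos 0 - 1 = 0 := by rw [Real.cos_zero, sub_self]
  have hs0 : (fun x => Real.sin x - x) 0 = 0 := by
    show Real.sin 0 - 0 = 0
    rw [Real.sin_zero, sub_self]
  have bsin : ∀ x : ℝ, |Real.sin x| ≤ |x| := fun x => Real.abs_sin_le_abs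
  have bcos : ∀ x : ℝ, |Real.cos x - 1| ≤ |x| := fun x => by
    have h := lip_of_deriv Real.hasDerivAt_cos (r := |x|) (L := 1)
      (fun y _ => by rw [abs_neg]; exact Real.abs_sin_le_one y) x 0 le_rfl
      (by rw [abs_zero]; exact abs_nonneg x)
    rw [Real.cos_zero, sub_zero, one_mul] at h
    exact h
  -- constants
  set K : ℝ := 2 * M ^ 2 * en ψ ψ + 2 * M ^ 4 * (en (X i) (X i) + en (X j) (X j)) with hK
  set K1 : ℝ := 2 * en ψ ψ + 2 * M ^ 2 * (en (X i) (X i) + en (X j) (X j)) with hK1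
  have hEi := en_self_nonneg (X i)
  have hEj := en_self_nonneg (X j)
  have hEψ := en_self_nonneg ψ
  have hPi := hψ.mul hi
  have hPj := hψ.mul hj
  have main : ∀ ε : ℝ, 0 ≤ 2 * ε * (en (X j) (fun t => ψ t * X i t) -
      en (X i) (fun t => ψ t * X j t)) +
      ε ^ 2 * (en (X i) (X i) + en (X j) (X j) + 8 * K + 8 * K1) := by
    intro ε
    have hr : 0 ≤ |ε| * M := by positivity
    -- second order remainders
    have C2 : ∀ a b, |a| ≤ |ε| * M → |b| ≤ |ε| * M →
        |(Real.cos a - 1) - (Real.cos b - 1)| ≤ (|ε| * M) * |a - b| :=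
      lip_of_deriv hdc fun x hx => by rw [abs_neg]; exact (bsin x).trans hx
    have S2 : ∀ a b, |a| ≤ |ε| * M → |b| ≤ |ε| * M →
        |(Real.sin a - a) - (Real.sin b - b)| ≤ (|ε| * M) * |a - b| :=
      lip_of_deriv hds fun x hx => (bcos x).trans hx
    have C1 : ∀ a b, |a| ≤ |ε| * M → |b| ≤ |ε| * M →
        |(Real.cos a - 1) - (Real.cos b - 1)| ≤ 1 * |a - b| :=
      lip_of_deriv hdc fun x _ => by rw [abs_neg]; exact Real.abs_sin_le_one x
    have S1 : ∀ a b, |a| ≤ |ε| * M → |b| ≤ |ε| * M →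
        |Real.sin a - Real.sin b| ≤ 1 * |a - b| :=
      lip_of_deriv Real.hasDerivAt_sin fun x _ => Real.abs_cos_le_one x
    obtain ⟨fCi, eCi⟩ := comp (F := fun x => Real.cos x - 1) hψ hi hi1 hM hc0 hcc C2 hr
    obtain ⟨fCj, eCj⟩ := comp (F := fun x => Real.cos x - 1) hψ hj hj1 hM hc0 hcc C2 hr
    obtain ⟨fSi, eSi⟩ := comp (F := fun x => Real.sin x - x) hψ hi hi1 hM hs0 hcs S2 hr
    obtain ⟨fSj, eSj⟩ := comp (F := fun x => Real.sin x - x) hψ hj hj1 hM hs0 hcs S2 hr
    obtain ⟨-, eCi'⟩ := comp (F := fun x => Real.cos x - 1) hψ hi hi1 hM hc0 hcc C1 zero_le_one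
    obtain ⟨-, eCj'⟩ := comp (F := fun x => Real.cos x - 1) hψ hj hj1 hM hc0 hcc C1 zero_le_one
    obtain ⟨fTi, eTi⟩ := comp (F := Real.sin) hψ hi hi1 hM Real.sin_zero Real.continuous_sin S1
      zero_le_one
    obtain ⟨fTj, eTj⟩ := comp (F := Real.sin) hψ hj hj1 hM Real.sin_zero Real.continuous_sin S1
      zero_le_one
    have hsq : |ε| ^ 2 = ε ^ 2 := sq_abs ε
    have hA : FE (fun t => (Real.cos (ε * ψ t) - 1) * X i t - Real.sin (ε * ψ t) * X j t) :=
      fCi.sub fTj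
    have hB : FE (fun t => (Real.cos (ε * ψ t) - 1) * X j t + Real.sin (ε * ψ t) * X i t) :=
      fCj.add fTi
    -- the rotated map
    set A : ℝ → ℝ := fun t => (Real.cos (ε * ψ t) - 1) * X i t - Real.sin (ε * ψ t) * X j t
      with hAd
    set B : ℝ → ℝ := fun t => (Real.cos (ε * ψ t) - 1) * X j t + Real.sin (ε * ψ t) * X i t
      with hBd
    set Yi : ℝ → ℝ := fun t => X i t + A t with hYi
    set Yj : ℝ → ℝ := fun t => X j t + B t with hYj
    have hYiE : FE Yi := hi.add hA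
    have hYjE : FE Yj := hj.add hB
    have hadm : Adm D (Function.update (Function.update X i Yi) j Yj) := by
      refine ⟨fun k => ?_, fun k => ?_, ?_⟩
      · rcases eq_or_ne k j with h | h
        · rw [h, Function.update_self]
          exact hYjE
        · rw [Function.update_of_ne h]
          rcases eq_or_ne k i with h' | h'
          · rw [h', Function.update_self]
            exact hYiE
          · rw [Function.update_of_ne h']
            exact hO.fe k
      · rcases eq_or_ne k j with h | h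
        · rw [h, Function.update_self]
          filter_upwards [hvj] with t ht hZ
          have h1 := ht hZ
          have h2 := hO.zeroE j t hZ
          simp only [hYj, hBd, h1, h2, mul_zero, Real.cos_zero, Real.sin_zero, zero_mul, add_zero]
        · rw [Function.update_of_ne h]
          rcases eq_or_ne k i with h' | h'
          · rw [h', Function.update_self]
            filter_upwards [hvi] with t ht hZ
            have h1 := ht hZ
            have h2 := hO.zeroE i t hZ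
            simp only [hYi, hAd, h1, h2, mul_zero, Real.cos_zero, Real.sin_zero, zero_mul,
              add_zero, sub_zero]
          · rw [Function.update_of_ne h']
            exact hO.adm.zero k
      · filter_upwards [hO.adm.one] with t ht hH
        rw [sum_update, sum_update, Function.update_of_ne hij.symm, ht hH]
        simp only [hYi, hYj, hAd, hBd]
        have h1 := Real.sin_sq_add_cos_sq (ε * ψ t)
        have e : (X i t + ((Real.cos (ε * ψ t) - 1) * X i t - Real.sin (ε * ψ t) * X j t)) ^ 2 +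
            (X j t + ((Real.cos (ε * ψ t) - 1) * X j t + Real.sin (ε * ψ t) * X i t)) ^ 2 =
            (Real.sin (ε * ψ t) ^ 2 + Real.cos (ε * ψ t) ^ 2) * (X i t ^ 2 + X j t ^ 2) := by
          ring
        rw [h1] at e
        linarith
    have h0 := hX.min _ hadm
    rw [ven_update, ven_update, Function.update_of_ne hij.symm, hYi, hYj, en_add_self hi hA,
      en_add_self hj hB] at h0
    -- the mixed terms
    have hT : ∀ k l : Fin 3, FE (fun t => ψ t * X l t) →
        FE (fun t => (Real.sin (ε * ψ t) - ε * ψ t) * X l t) → FE (X k) →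
        en (X k) (fun t => Real.sin (ε * ψ t) * X l t) = ε * en (X k) (fun t => ψ t * X l t) +
          en (X k) (fun t => (Real.sin (ε * ψ t) - ε * ψ t) * X l t) := by
      intro k l h1 h2 h3
      rw [← en_smul_right, ← en_add_right h3 (h1.smul ε) h2]
      refine congrArg (en (X k)) (funext fun t => ?_)
      ring
    have hmA : en (X i) A = en (X i) (fun t => (Real.cos (ε * ψ t) - 1) * X i t) -
        (ε * en (X i) (fun t => ψ t * X j t) +
          en (X i) (fun t => (Real.sin (ε * ψ t) - ε * ψ t) * X j t)) := by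
      rw [hAd, en_sub_right hi fCi fTj, hT i j hPj fSj hi]
    have hmB : en (X j) B = en (X j) (fun t => (Real.cos (ε * ψ t) - 1) * X j t) +
        (ε * en (X j) (fun t => ψ t * X i t) +
          en (X j) (fun t => (Real.sin (ε * ψ t) - ε * ψ t) * X i t)) := by
      rw [hBd, en_add_right hj fCj fTi, hT j i hPi fSi hj]
    -- the squares
    have hAA : en A A ≤ 2 * en (fun t => (Real.cos (ε * ψ t) - 1) * X i t)
        (fun t => (Real.cos (ε * ψ t) - 1) * X i t) +
        2 * en (fun t => Real.sin (ε * ψ t) * X j t) (fun t => Real.sin (ε * ψ t) * X j t) := by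
      refine en_le2 fCi fTj fun s t => ?_
      simp only [hAd]
      exact sq_sub _ _ _ _
    have hBB : en B B ≤ 2 * en (fun t => (Real.cos (ε * ψ t) - 1) * X j t)
        (fun t => (Real.cos (ε * ψ t) - 1) * X j t) +
        2 * en (fun t => Real.sin (ε * ψ t) * X i t) (fun t => Real.sin (ε * ψ t) * X i t) := by
      refine en_le2 fCj fTi fun s t => ?_
      simp only [hBd]
      exact sq_add _ _ _ _
    rcases eq_or_ne ε 0 with hε | hε
    · rw [hε]
      simp
    have hc : 0 < ε ^ 2 / 2 := by positivity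
    have y1 := young hi fCi hc
    have y2 := young' hi fSj hc
    have y3 := young hj fCj hc
    have y4 := young hj fSi hc
    have hci : (ε ^ 2 / 2)⁻¹ = 2 / ε ^ 2 := by
      rw [inv_div]
    have hsm : ∀ {E x : ℝ}, E ≤ 2 * (|ε| * M * ε) ^ 2 * en ψ ψ +
        2 * (|ε| * M * ε) ^ 2 * M ^ 2 * x →
        (ε ^ 2 / 2)⁻¹ * E ≤ ε ^ 2 * (4 * M ^ 2 * en ψ ψ + 4 * M ^ 4 * x) := by
      intro E x h
      have h1 : 2 * (|ε| * M * ε) ^ 2 * en ψ ψ + 2 * (|ε| * M * ε) ^ 2 * M ^ 2 * x =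
          (ε ^ 2 / 2) * (ε ^ 2 * (4 * M ^ 2 * en ψ ψ + 4 * M ^ 4 * x)) := by
        have : (|ε| * M * ε) ^ 2 = ε ^ 4 * M ^ 2 := by
          rw [mul_pow, mul_pow, sq_abs]
          ring
        rw [this]
        ring
      rw [h1] at h
      have h2 := mul_le_mul_of_nonneg_left h (inv_pos.2 hc).le
      rwa [inv_mul_cancel_left₀ hc.ne'] at h2
    have z1 := hsm eCi
    have z2 := hsm eSj
    have z3 := hsm eCj
    have z4 := hsm eSi
    have e0 : 0 ≤ ε ^ 2 * (4 * M ^ 2 * en (X i) (X i)) := by positivity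
    have e1 : 0 ≤ ε ^ 2 * (M ^ 2 * en (X i) (X i)) := by positivity
    have e2 : 0 ≤ ε ^ 2 * (M ^ 2 * en (X j) (X j)) := by positivity
    have e3 : 0 ≤ ε ^ 2 * (M ^ 4 * en (X i) (X i)) := by positivity
    have e4 : 0 ≤ ε ^ 2 * (M ^ 4 * en (X j) (X j)) := by positivity
    have e5 : 0 ≤ ε ^ 2 * (M ^ 2 * en ψ ψ) := by positivity
    rw [one_mul] at eCi' eCj' eTi eTj
    rw [hK, hK1]
    rw [hmA, hmB] at h0
    linarith
  have h := eq_zero_of_quad main
  linarith

end Pool.Agent.FBM
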