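import Mathlib
import Pool.Agent.FBM.StmtB
import Pool.Agent.FBM.B0

/-!
# BSUP: positivity of nonnegative supersolutions
-/

set_option autoImplicit false

open MeasureTheory Set Filter Topology
open scoped Real

namespace Pool.Agent.FBM

namespace BSUP

/-- the shifted cosine -/
noncomputable def cs (t₀ : ℝ) (t : ℝ) : ℝ := Real.cos (t - t₀)

lemma cs_eq (t₀ : ℝ) : cs t₀ = fun t => Real.cos t₀ * Real.cos ((1 : ℕ) * t) +
    Real.sin t₀ * Real.sin ((1 : ℕ) * t) := by
  funext t
  unfold cs
  rw [Real.cos_sub]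
  simp only [Nat.cast_one, one_mul]
  ring

lemma fe_cs (hcos : Stmt_A_cos) (t₀ : ℝ) : FE (cs t₀) := by
  obtain ⟨h1, h2, -, -⟩ := hcos _ (FE.const 0) 1
  rw [cs_eq]
  exact (h1.smul _).add (h2.smul _)

lemma int_bdd {f : ℝ → ℝ} (hf : FE f) : Integrable f cm := by
  obtain ⟨C, hC⟩ := hf.bdd
  exact (integrable_const C).mono' hf.meas.aestronglyMeasurable
    (Eventually.of_forall fun t => by rw [Real.norm_eq_abs]; exact hC t)

lemma en_cs_eq (hcos : Stmt_A_cos) (t₀ : ℝ) {v : ℝ → ℝ} (hv : FE v) :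
    en (cs t₀) v = ∫ t, v t * cs t₀ t ∂cm := by
  obtain ⟨h1, h2, h3, h4⟩ := hcos v hv 1
  have e1 : en (cs t₀) v = Real.cos t₀ * en v (fun t => Real.cos ((1 : ℕ) * t)) +
      Real.sin t₀ * en v (fun t => Real.sin ((1 : ℕ) * t)) := by
    rw [cs_eq, en_add_left (h1.smul _) (h2.smul _) hv, en_smul_left, en_smul_left,
      en_comm _ v, en_comm _ v]
  rw [e1, h3, h4, cs_eq]
  simp only [Nat.cast_one, one_mul]
  have i1 : Integrable (fun t => v t * Real.cos t) cm := by
    have := int_bdd (hv.mul h1)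
    simpa using this
  have i2 : Integrable (fun t => v t * Real.sin t) cm := by
    have := int_bdd (hv.mul h2)
    simpa using this
  rw [← integral_const_mul, ← integral_const_mul, ← integral_add (i1.const_mul _) (i2.const_mul _)]
  refine integral_congr_ae (Eventually.of_forall fun t => ?_)
  simp only
  ring

/-- functions with disjoint supports: the form is at most minus the product of the means -/
lemma en_disj_le (hD : Stmt_A_disj) {u v : ℝ → ℝ} (hu : FE u) (hv : FE v)
    (huv : ∀ t, u t * v t = 0) (u0 : ∀ t, 0 ≤ u t) (v0 : ∀ t, 0 ≤ v t) :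
    en u v ≤ -(1 / (4 * π)) * ((∫ t, u t ∂cm) * ∫ t, v t ∂cm) := by
  obtain ⟨h1, h2⟩ := hD u v hu hv huv u0 v0
  rw [h2]
  have h3 : (1 / 4 : ℝ) * ((∫ t, u t ∂cm) * ∫ t, v t ∂cm) ≤
      ∫ p, J p.1 p.2 * (u p.1 * v p.2) ∂cm2 := by
    rw [← integral_prod_mul, ← integral_const_mul]
    refine integral_mono_ae (((int_bdd hu).mul_prod (int_bdd hv)).const_mul _) h1 ?_
    filter_upwards [cm2_J_ge] with q hq
    exact mul_le_mul_of_nonneg_right hq (mul_nonneg (u0 _) (v0 _))
  have hpi := Real.pi_pos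
  have h4 : (1 / π) * ((1 / 4 : ℝ) * ((∫ t, u t ∂cm) * ∫ t, v t ∂cm)) ≤
      (1 / π) * ∫ p, J p.1 p.2 * (u p.1 * v p.2) ∂cm2 :=
    mul_le_mul_of_nonneg_left h3 (by positivity)
  have h5 : (1 / π) * ((1 / 4 : ℝ) * ((∫ t, u t ∂cm) * ∫ t, v t ∂cm)) =
      1 / (4 * π) * ((∫ t, u t ∂cm) * ∫ t, v t ∂cm) := by
    field_simp
  rw [h5] at h4
  linarith

/-- the bump function vanishes on `Z` -/
lemma phi_zero {Z : Set ℝ} (hZ : ∀ t, t + 2 * π ∈ Z ↔ t ∈ Z) {t₀ d : ℝ} (hd : 0 < d)
    (hdZ : ∀ s, |s - t₀| < d → s ∉ Z) {t : ℝ} (ht : t ∈ Z) : cs t₀ t ≤ Real.cos d := by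
  by_contra hcon
  rw [not_le] at hcon
  have hZ' : ∀ (n : ℤ) (t : ℝ), t + n * (2 * π) ∈ Z ↔ t ∈ Z := by
    intro n
    induction n using Int.induction_on with
    | zero => intro t; simp
    | succ n ih =>
      intro t
      have h1 : t + ((n + 1 : ℤ) : ℝ) * (2 * π) = (t + 2 * π) + n * (2 * π) := by
        push_cast; ring
      rw [h1]
      exact (ih _).trans (hZ t)
    | pred n ih =>
      intro t
      have h1 : t + ((-(n : ℤ) - 1 : ℤ) : ℝ) * (2 * π) + 2 * π = t + (-(n : ℤ) : ℤ) * (2 * π) := by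
        push_cast; ring
      rw [← hZ, h1]
      exact ih t
  obtain ⟨n, hn, -⟩ := existsUnique_add_zsmul_mem_Ioc (by positivity : (0 : ℝ) < 2 * π) (t - t₀) (-π)
  rw [zsmul_eq_mul] at hn
  have e : -π + 2 * π = π := by ring
  rw [e] at hn
  have h1 : |t + n * (2 * π) - t₀| < d := by
    by_contra hge
    rw [not_lt] at hge
    have h2 : |t + n * (2 * π) - t₀| ≤ π := by
      rw [abs_le]
      constructor
      · linarith [hn.1]
      · linarith [hn.2]
    have h3 := Real.cos_le_cos_of_nonneg_of_le_pi hd.le h2 hge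
    rw [Real.cos_abs] at h3
    have h4 : t + n * (2 * π) - t₀ = (t - t₀) + n * (2 * π) := by ring
    rw [h4, Real.cos_add_int_mul_two_pi] at h3
    unfold cs at hcon
    linarith
  exact hdZ _ h1 ((hZ' n t).2 ht)

end BSUP

open BSUP

/-- Positivity of nonnegative supersolutions. -/
theorem t_B_sup (hcos : Stmt_A_cos) (hD : Stmt_A_disj) : Stmt_B_sup := by
  intro x Z hx x0 hZ hsup hne t₀ ht₀
  have hpi := Real.pi_pos
  -- the neighbourhood
  obtain ⟨e, he, heZ⟩ : ∃ e > 0, ∀ s, |s - t₀| < e → s ∉ Z := by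
    rw [Metric.mem_closure_iff] at ht₀
    push Not at ht₀
    obtain ⟨e, he, h⟩ := ht₀
    refine ⟨e, he, fun s hs hsZ => ?_⟩
    have := h s hsZ
    rw [Real.dist_eq, abs_sub_comm] at this
    linarith
  obtain ⟨d, hd, hd1, hdZ⟩ : ∃ d > 0, d < π ∧ ∀ s, |s - t₀| < d → s ∉ Z :=
    ⟨min e 1, lt_min he one_pos, lt_of_le_of_lt (min_le_right _ _) (by linarith [Real.pi_gt_three]),
      fun s hs => heZ s (lt_of_lt_of_le hs (min_le_left _ _))⟩
  have hc := fe_cs hcos t₀
  -- the bump function
  set φ : ℝ → ℝ := fun t => max (cs t₀ t - Real.cos d) 0 with hφ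
  have hφF : FE φ := (hc.sub (FE.const (Real.cos d))).pos_part
  have hφ0 : ∀ t, 0 ≤ φ t := fun t => le_max_right _ _
  have hφZ : ∀ t ∈ Z, φ t = 0 := by
    intro t ht
    have := phi_zero hZ hd hdZ ht
    exact max_eq_right (by linarith)
  have hφ2 : ∀ t, φ t ≤ 2 := by
    intro t
    refine max_le ?_ (by norm_num)
    have h1 := Real.cos_le_one (t - t₀)
    have h2 := Real.neg_one_le_cos d
    unfold cs
    linarith
  -- the integral of x is positive
  have hxi : Integrable x cm := int_bdd hx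
  have hI : 0 < ∫ t, x t ∂cm := by
    refine lt_of_le_of_ne (integral_nonneg x0) fun h => hne ?_
    have := (integral_eq_zero_iff_of_nonneg x0 hxi).1 h.symm
    exact this
  set m : ℝ := (∫ t, x t ∂cm) / (16 * π) with hm
  have hm0 : 0 < m := by rw [hm]; positivity
  have hmI : (∫ t, x t ∂cm) = 16 * π * m := by
    rw [hm]; field_simp
  -- the functions v and u
  set v : ℝ → ℝ := fun t => max (m * φ t - x t) 0 with hv
  set u : ℝ → ℝ := fun t => max (x t - m * φ t) 0 with hu
  have hvF : FE v := ((hφF.smul m).sub hx).pos_part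
  have huF : FE u := (hx.sub (hφF.smul m)).pos_part
  have v0 : ∀ t, 0 ≤ v t := fun t => le_max_right _ _
  have u0 : ∀ t, 0 ≤ u t := fun t => le_max_right _ _
  have huv : ∀ t, u t * v t = 0 := by
    intro t
    rcases le_total (x t) (m * φ t) with h | h
    · have : u t = 0 := max_eq_right (by linarith)
      rw [this, zero_mul]
    · have : v t = 0 := max_eq_right (by linarith)
      rw [this, mul_zero]
  have hW : ∀ t, m * φ t - x t = v t - u t := by
    intro t
    rcases le_total (x t) (m * φ t) with h | h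
    · have h1 : u t = 0 := max_eq_right (by linarith)
      have h2 : v t = m * φ t - x t := max_eq_left (by linarith)
      rw [h1, h2, sub_zero]
    · have h1 : v t = 0 := max_eq_right (by linarith)
      have h2 : u t = x t - m * φ t := max_eq_left (by linarith)
      rw [h1, h2]; ring
  have hvZ : Van Z v := Eventually.of_forall fun t ht => by
    have h1 := hφZ t ht
    have h2 := x0 t
    simp only [hv, h1, mul_zero, zero_sub]
    exact max_eq_right (by linarith)
  have hxv : 0 ≤ en x v := hsup v hvF v0 hvZ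
  -- (1)
  set w : ℝ → ℝ := fun t => max (Real.cos d - cs t₀ t) 0 with hw
  have hwF : FE w := ((FE.const (Real.cos d)).sub hc).pos_part
  have w0 : ∀ t, 0 ≤ w t := fun t => le_max_right _ _
  have hwv : ∀ t, w t * v t = 0 := by
    intro t
    rcases le_total (cs t₀ t) (Real.cos d) with h | h
    · have h1 : φ t = 0 := max_eq_right (by linarith)
      have h2 : v t = 0 := by
        simp only [hv, h1, mul_zero, zero_sub]
        exact max_eq_right (by linarith [x0 t])
      rw [h2, mul_zero]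
    · have h1 : w t = 0 := max_eq_right (by linarith)
      rw [h1, zero_mul]
  have hφw : φ = fun t => (cs t₀ t - Real.cos d) + w t := by
    funext t
    rcases le_total (cs t₀ t) (Real.cos d) with h | h
    · have h1 : φ t = 0 := max_eq_right (by linarith)
      have h2 : w t = Real.cos d - cs t₀ t := max_eq_left (by linarith)
      rw [h1, h2]; ring
    · have h1 : w t = 0 := max_eq_right (by linarith)
      have h2 : φ t = cs t₀ t - Real.cos d := max_eq_left (by linarith)
      rw [h1, h2]; ring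
  have hIv : 0 ≤ ∫ t, v t ∂cm := integral_nonneg v0
  have hIw : 0 ≤ ∫ t, w t ∂cm := integral_nonneg w0
  have h1 : en φ v ≤ ∫ t, v t ∂cm := by
    have e1 : en φ v = en (cs t₀) v + en w v := by
      rw [hφw, en_add_left (hc.sub (FE.const _)) hwF hvF, en_sub_left hc (FE.const _) hvF,
        en_const_left, sub_zero]
    have e2 : en w v ≤ 0 := by
      refine (en_disj_le hD hwF hvF hwv w0 v0).trans ?_
      have := mul_nonneg (by positivity : 0 ≤ 1 / (4 * π)) (mul_nonneg hIw hIv)
      linarith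
    have e3 : en (cs t₀) v ≤ ∫ t, v t ∂cm := by
      rw [en_cs_eq hcos t₀ hvF]
      refine integral_mono (int_bdd (hvF.mul hc)) (int_bdd hvF) fun t => ?_
      have h2 : cs t₀ t ≤ 1 := Real.cos_le_one _
      have h3 := v0 t
      simp only
      nlinarith
    rw [e1]
    linarith
  -- (2)
  have h2 : m * en φ v - en x v ≥ 1 / (4 * π) * ((∫ t, u t ∂cm) * ∫ t, v t ∂cm) := by
    have e1 : en (fun t => m * φ t - x t) v = m * en φ v - en x v := by
      rw [en_sub_left (hφF.smul m) hx hvF, en_smul_left]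
    have e2 : en (fun t => m * φ t - x t) v = en v v - en u v := by
      have : (fun t => m * φ t - x t) = fun t => v t - u t := funext hW
      rw [this, en_sub_left hvF huF hvF]
    have e3 := en_disj_le hD huF hvF huv u0 v0
    have e4 := en_self_nonneg v
    rw [← e1, e2]
    linarith
  -- the integral of u is large
  have h3 : 12 * π * m ≤ ∫ t, u t ∂cm := by
    have e1 : ∫ t, (x t - 2 * m) ∂cm ≤ ∫ t, u t ∂cm := by
      refine integral_mono (hxi.sub (integrable_const _)) (int_bdd huF) fun t => ?_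
      have h4 : x t - m * φ t ≤ u t := le_max_left _ _
      have h5 := hφ2 t
      simp only
      nlinarith
    rw [integral_sub hxi (integrable_const _), integral_const, hmI] at e1
    have e2 : cm.real univ = 2 * π := by
      rw [measureReal_def, cm_univ, ENNReal.toReal_ofReal (by positivity)]
    rw [e2, smul_eq_mul] at e1
    linarith
  -- the integral of v vanishes
  have h4 : ∫ t, v t ∂cm = 0 := by
    have e1 : 1 / (4 * π) * ((∫ t, u t ∂cm) * ∫ t, v t ∂cm) ≤ m * ∫ t, v t ∂cm := by
      have := mul_le_mul_of_nonneg_left h1 hm0.le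
      linarith
    have e2 : 1 / (4 * π) * (12 * π * m * ∫ t, v t ∂cm) ≤
        1 / (4 * π) * ((∫ t, u t ∂cm) * ∫ t, v t ∂cm) :=
      mul_le_mul_of_nonneg_left (mul_le_mul_of_nonneg_right h3 hIv) (by positivity)
    have e3 : 1 / (4 * π) * (12 * π * m * ∫ t, v t ∂cm) = 3 * (m * ∫ t, v t ∂cm) := by
      field_simp; ring
    have e4 : m * ∫ t, v t ∂cm ≤ 0 := by
      have := mul_nonneg hm0.le hIv
      rw [e3] at e2
      linarith
    have e5 : m * ∫ t, v t ∂cm = 0 := le_antisymm e4 (mul_nonneg hm0.le hIv)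
    exact (mul_eq_zero.1 e5).resolve_left hm0.ne'
  have h5 : ∀ᵐ t ∂cm, v t = 0 := (integral_eq_zero_iff_of_nonneg v0 (int_bdd hvF)).1 h4
  have h6 : ∀ᵐ t, v t = 0 := ae_of_cm (p := fun t => v t = 0) (fun t => by
    simp only [hvF.per t]) h5
  refine ⟨m * (Real.cos (d / 2) - Real.cos d), mul_pos hm0 (sub_pos.2 ?_), d / 2, by positivity, ?_⟩
  · exact Real.cos_lt_cos_of_nonneg_of_le_pi (by positivity) hd1.le (by linarith)
  · filter_upwards [h6] with s hs hsd
    have h7 : m * φ s - x s ≤ 0 := by rw [← hs]; exact le_max_left _ _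
    have h8 : Real.cos (d / 2) ≤ cs t₀ s := by
      unfold cs
      rw [← Real.cos_abs (s - t₀)]
      exact Real.cos_le_cos_of_nonneg_of_le_pi (abs_nonneg _) (by linarith) hsd.le
    have h9 : Real.cos (d / 2) - Real.cos d ≤ φ s :=
      le_trans (by linarith) (le_max_left _ _)
    have h10 := mul_le_mul_of_nonneg_left h9 hm0.le
    linarith

end Pool.Agent.FBM
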