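import Pool.Agent.FBM.B0

/-!
# FBM, block B, module BTIN: the normal derivatives are integrable

Proof in the doc-string of `Stmt_B_tin` in `Pool/Agent/FBM/StmtB.lean`.
-/

open MeasureTheory Set Filter Topology
open scoped Real

namespace Pool.Agent.FBM

namespace BTIN

/-- Fatou's lemma for integrability. -/
theorem integrable_of_cut {f : ℝ → ℝ} {F : ℕ → ℝ → ℝ} {K : ℝ}
    (h0 : ∀ k t, 0 ≤ F k t) (hi : ∀ k, Integrable (F k) cm)
    (hK : ∀ k, ∫ t, F k t ∂cm ≤ K)
    (ht : ∀ᵐ t ∂cm, Tendsto (fun k => F k t) atTop (𝓝 (f t))) : Integrable f cm := by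
  refine integrable_of_tendsto (G := F) ht (fun k => (hi k).aestronglyMeasurable) ?_
  have hb : ∀ k, ∫⁻ t, ‖F k t‖ₑ ∂cm ≤ ENNReal.ofReal K := by
    intro k
    have h1 : ∫⁻ t, ‖F k t‖ₑ ∂cm = ENNReal.ofReal (∫ t, F k t ∂cm) := by
      rw [ofReal_integral_eq_lintegral_ofReal (hi k) (Eventually.of_forall (h0 k))]
      refine lintegral_congr fun t => ?_
      rw [Real.enorm_eq_ofReal (h0 k t)]
    rw [h1]
    exact ENNReal.ofReal_le_ofReal (hK k)
  refine ne_top_of_le_ne_top (b := ENNReal.ofReal K) ENNReal.ofReal_ne_top ?_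
  refine Filter.liminf_le_of_le (by isBoundedDefault) fun b hb' => ?_
  obtain ⟨k, hk⟩ := hb'.exists
  exact hk.trans (hb k)

end BTIN

/-- TIN: the normal derivatives of a minimiser are integrable. -/
theorem t_B_tin (hC : Stmt_A_cut) (hM : Stmt_B_mea) (hI : Stmt_B_lin) (hO : Stmt_B_wof)
    (hZ : Stmt_B_tzf) : Stmt_B_tin := by
  intro D hD X hX i
  have hoct := hX.oct
  obtain ⟨⟨-, -, hl0⟩, hT⟩ := hM D hD X hoct
  obtain ⟨hTm, -, hTn, hTo⟩ := hT i
  obtain ⟨hli, -⟩ := hI D hD X hX
  obtain ⟨χ, hχ, hχ01, hχe, hχ1, hχi⟩ := hC 1 (fun _ => D.Z i) (fun _ => hD.tZ i)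
  have hSm : MeasurableSet (D.Z i) := (hD.tZ i).meas
  have hψFE : ∀ k, FE ((D.Z i).indicator (χ k)) := by
    intro k
    have h := hχi k 0 (fun _ => 1) (FE.const 1)
    simpa using h
  -- off `Z i`
  have h1 : Integrable ((D.Z i)ᶜ.indicator (TX D X i)) cm := by
    refine hli.mono' (hTm.indicator hSm.compl).aestronglyMeasurable
      (Eventually.of_forall fun t => ?_)
    by_cases ht : t ∈ D.Z i
    · rw [indicator_of_notMem (notMem_compl_iff.2 ht), norm_zero]
      exact hl0 t
    · rw [indicator_of_mem (mem_compl ht), hTo t ht, Real.norm_eq_abs, abs_mul,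
        abs_of_nonneg (hl0 t)]
      exact mul_le_of_le_one_right (hl0 t) (hoct.abs_le i t)
  -- a bound for the energies of the cutoffs
  obtain ⟨M, hM'⟩ := hχe.bddAbove_range
  have hMk : ∀ k, en (χ k) (χ k) ≤ M := fun k => hM' ⟨k, rfl⟩
  -- on `Z i`
  have h2 : Integrable ((D.Z i).indicator (fun t => - TX D X i t)) cm := by
    refine BTIN.integrable_of_cut (F := fun k t => -(TX D X i t * (D.Z i).indicator (χ k) t))
      (K := 1 + en (X i) (X i) * M + ∫ t, lamX D X t ∂cm) ?_ ?_ ?_ ?_
    · intro k t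
      by_cases ht : t ∈ D.Z i
      · rw [indicator_of_mem ht]
        have := mul_nonneg (neg_nonneg.2 (hTn t ht)) (hχ01 k t).1
        linarith
      · rw [indicator_of_notMem ht]; simp
    · intro k
      exact (hZ D hD X hoct i _ (hψFE k) (van_indicator _ _)).1.neg
    · intro k
      have e1 := (hZ D hD X hoct i _ (hψFE k) (van_indicator _ _)).2
      have hgFE : FE (fun t => χ k t - (D.Z i).indicator (χ k) t) := (hχ k).sub (hψFE k)
      have e2 := hO D hD X hX i _ hgFE (van_sub_indicator _ _)
      have e3 : en (X i) (fun t => χ k t - (D.Z i).indicator (χ k) t)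
          = en (X i) (χ k) - en (X i) ((D.Z i).indicator (χ k)) :=
        en_sub_right (hoct.fe i) (hχ k) (hψFE k)
      have e4 : ∫ t, lamX D X t * X i t * (χ k t - (D.Z i).indicator (χ k) t) ∂cm
          ≤ ∫ t, lamX D X t ∂cm := by
        have hg : ∀ t, 0 ≤ χ k t - (D.Z i).indicator (χ k) t ∧
            χ k t - (D.Z i).indicator (χ k) t ≤ 1 := by
          intro t
          by_cases ht : t ∈ D.Z i
          · rw [indicator_of_mem ht]; simp
          · rw [indicator_of_notMem ht, sub_zero]; exact hχ01 k t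
        refine integral_mono_of_nonneg (Eventually.of_forall fun t => ?_) hli
          (Eventually.of_forall fun t => ?_)
        · exact mul_nonneg (mul_nonneg (hl0 t) (hoct.nonneg i t)) (hg t).1
        · have ha : lamX D X t * X i t ≤ lamX D X t :=
            mul_le_of_le_one_right (hl0 t) (hoct.le i t)
          have hb : 0 ≤ lamX D X t * X i t := mul_nonneg (hl0 t) (hoct.nonneg i t)
          exact (mul_le_of_le_one_right hb (hg t).2).trans ha
      have e5 : - en (X i) (χ k) ≤ 1 + en (X i) (X i) * M := by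
        have h3 := en_cs (hoct.fe i) (hχ k)
        have h4 := mul_le_mul_of_nonneg_left (hMk k) (en_self_nonneg (X i))
        nlinarith [sq_nonneg (en (X i) (χ k) + 1), sq_nonneg (en (X i) (χ k))]
      rw [integral_neg, ← e1]
      linarith
    · filter_upwards [hχ1] with t ht
      by_cases hS : t ∈ D.Z i
      · simp only [indicator_of_mem hS]
        have := (ht.const_mul (TX D X i t)).neg
        simpa using this
      · simp only [indicator_of_notMem hS, mul_zero, neg_zero]
        exact tendsto_const_nhds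
  refine (h1.sub h2).congr (Eventually.of_forall fun t => ?_)
  by_cases hS : t ∈ D.Z i
  · simp only [Pi.sub_apply]
    rw [indicator_of_mem hS, indicator_of_notMem (notMem_compl_iff.2 hS)]
    ring
  · simp only [Pi.sub_apply]
    rw [indicator_of_notMem hS, indicator_of_mem (mem_compl hS)]
    ring

end Pool.Agent.FBM
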