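import Pool.Agent.FBM.StmtB
import Pool.Agent.FBM.B0

/-!
# FBM, block B: module TZF (weak equation for functions supported in `Z_i`)
-/

open MeasureTheory Set Filter Topology
open scoped Real

namespace Pool.Agent.FBM

namespace BTZF

variable {Z : Set ℝ} {x g : ℝ → ℝ}

/-- the product kernel is integrable -/
theorem int_F (hx : FE x) (hg : FE g) (hx0 : ∀ t ∈ Z, x t = 0) (hv : Van Zᶜ g) :
    Integrable (fun p : ℝ × ℝ => J p.1 p.2 * x p.2 * g p.1) cm2 := by
  refine (hx.int hg).mono ?_ ?_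
  · exact ((measurable_J.mul (hx.meas.comp measurable_snd)).mul
      (hg.meas.comp measurable_fst)).aestronglyMeasurable
  · filter_upwards [ae_cm2_of_ae hv] with p hp
    obtain ⟨h1, h2⟩ := hp
    by_cases hs : p.1 ∈ Z
    · by_cases ht : p.2 ∈ Z
      · rw [hx0 _ ht]
        simp only [mul_zero, zero_mul, norm_zero]
        exact norm_nonneg _
      · rw [hx0 _ hs, h2 ht]
        have e : J p.1 p.2 * ((0 - x p.2) * (g p.1 - 0)) = -(J p.1 p.2 * x p.2 * g p.1) := by ring
        rw [e, norm_neg]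
    · rw [h1 hs]
      simp only [mul_zero, norm_zero]
      exact norm_nonneg _

/-- the energy in terms of the product kernel -/
theorem en_F (hx : FE x) (hg : FE g) (hx0 : ∀ t ∈ Z, x t = 0) (hv : Van Zᶜ g) :
    en x g = -((1 / π) * ∫ p : ℝ × ℝ, J p.1 p.2 * x p.2 * g p.1 ∂cm2) := by
  have hF := int_F hx hg hx0 hv
  have hF' := integrable_cm2_swap hF
  have e1 : ∫ p : ℝ × ℝ, J p.1 p.2 * ((x p.1 - x p.2) * (g p.1 - g p.2)) ∂cm2 =
      ∫ p : ℝ × ℝ, -((J p.1 p.2 * x p.2 * g p.1) + (J p.2 p.1 * x p.1 * g p.2)) ∂cm2 := by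
    refine integral_congr_ae ?_
    filter_upwards [ae_cm2_of_ae hv] with p hp
    obtain ⟨h1, h2⟩ := hp
    have k1 : x p.1 * g p.1 = 0 := by
      by_cases hs : p.1 ∈ Z
      · rw [hx0 _ hs, zero_mul]
      · rw [h1 hs, mul_zero]
    have k2 : x p.2 * g p.2 = 0 := by
      by_cases ht : p.2 ∈ Z
      · rw [hx0 _ ht, zero_mul]
      · rw [h2 ht, mul_zero]
    rw [J_symm p.2 p.1]
    linear_combination J p.1 p.2 * (k1 + k2)
  have e2 : ∫ p : ℝ × ℝ, J p.2 p.1 * x p.1 * g p.2 ∂cm2 =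
      ∫ p : ℝ × ℝ, J p.1 p.2 * x p.2 * g p.1 ∂cm2 :=
    integral_cm2_swap (fun p : ℝ × ℝ => J p.1 p.2 * x p.2 * g p.1)
  unfold en
  rw [e1, integral_neg, integral_add hF hF', e2]
  field_simp
  ring

end BTZF

open BTZF in
theorem t_B_tzf : Stmt_B_tzf := by
  intro D _ X hX i g hg hv
  have hx : FE (X i) := hX.fe i
  have hx0 : ∀ t ∈ D.Z i, X i t = 0 := hX.zeroE i
  have hF := int_F hx hg hx0 hv
  have key : (fun t => -((1 / π) * ∫ u, J t u * X i u * g t ∂cm)) =ᵐ[cm]
      fun t => TX D X i t * g t := by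
    filter_upwards [hv] with t ht
    by_cases hZ : t ∈ D.Z i
    · have h1 : TX D X i t = -((1 / π) * ∫ u, J t u * X i u ∂cm) := by
        unfold TX
        rw [indicator_of_mem hZ, indicator_of_notMem (notMem_compl_iff.2 hZ), add_zero]
      rw [h1, integral_mul_const]
      ring
    · rw [ht hZ]
      simp
  have hI : Integrable (fun t => -((1 / π) * ∫ u, J t u * X i u * g t ∂cm)) cm :=
    ((Integrable.integral_prod_left hF).const_mul (1 / π)).neg
  refine ⟨hI.congr key, ?_⟩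
  rw [← integral_congr_ae key, integral_neg, integral_const_mul, en_F hx hg hx0 hv]
  unfold cm2
  rw [integral_prod _ hF]

end Pool.Agent.FBM
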