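import Pool.Agent.FBM.StmtB

/-!
# BWOF: the weak equation for functions which vanish on `Z_i`
-/

open MeasureTheory Set Filter Topology
open scoped Real

namespace Pool.Agent.FBM

namespace BWOF

lemma en_mul_le {g χ : ℝ → ℝ} (hg : FE g) (hχ : FE χ) (C : ℝ) (hC : ∀ t, |g t| ≤ C)
    (h1 : ∀ t, 0 ≤ χ t ∧ χ t ≤ 1) :
    en (fun t => g t * χ t) (fun t => g t * χ t) ≤ 2 * en g g + 2 * C ^ 2 * en χ χ := by
  have hi1 := hg.int hg
  have hi2 := hχ.int hχ
  have hi3 := (hg.mul hχ).int (hg.mul hχ)
  have key : ∫ p, J p.1 p.2 * ((g p.1 * χ p.1 - g p.2 * χ p.2) * (g p.1 * χ p.1 - g p.2 * χ p.2))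
        ∂cm2 ≤ ∫ p, (2 * (J p.1 p.2 * ((g p.1 - g p.2) * (g p.1 - g p.2))) +
          2 * C ^ 2 * (J p.1 p.2 * ((χ p.1 - χ p.2) * (χ p.1 - χ p.2)))) ∂cm2 := by
    refine integral_mono hi3 ((hi1.const_mul 2).add (hi2.const_mul (2 * C ^ 2))) ?_
    intro p
    have hC2 : g p.2 ^ 2 ≤ C ^ 2 := by
      rw [← sq_abs]; exact pow_le_pow_left₀ (abs_nonneg _) (hC p.2) 2
    have hχ2 : χ p.1 ^ 2 ≤ 1 := by
      have := h1 p.1
      nlinarith
    have e : g p.1 * χ p.1 - g p.2 * χ p.2 =
        (g p.1 - g p.2) * χ p.1 + g p.2 * (χ p.1 - χ p.2) := by ring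
    have h2 : (g p.1 * χ p.1 - g p.2 * χ p.2) * (g p.1 * χ p.1 - g p.2 * χ p.2) ≤
        2 * ((g p.1 - g p.2) * (g p.1 - g p.2)) +
          2 * C ^ 2 * ((χ p.1 - χ p.2) * (χ p.1 - χ p.2)) := by
      rw [e]
      have h3 := mul_le_mul_of_nonneg_left hχ2 (sq_nonneg (g p.1 - g p.2))
      have h4 := mul_le_mul_of_nonneg_right hC2 (sq_nonneg (χ p.1 - χ p.2))
      nlinarith [sq_nonneg ((g p.1 - g p.2) * χ p.1 - g p.2 * (χ p.1 - χ p.2))]
    have h5 := mul_le_mul_of_nonneg_left h2 (J_nonneg p.1 p.2)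
    simp only
    linarith
  rw [integral_add (hi1.const_mul 2) (hi2.const_mul (2 * C ^ 2)), integral_const_mul,
    integral_const_mul] at key
  unfold en
  have hp : (0 : ℝ) ≤ 1 / (2 * π) := by positivity
  have := mul_le_mul_of_nonneg_left key hp
  refine this.trans (le_of_eq ?_)
  ring

end BWOF

theorem t_B_wof (hW : Stmt_A_weak) (hC : Stmt_A_cut) (hF : Stmt_B_free) (hR : Stmt_B_red)
    (hL : Stmt_B_lfo) (hI : Stmt_B_lin) : Stmt_B_wof := by
  intro D hD X hX i g hg hgZ
  obtain ⟨χ, hχ1, hχ2, hχ3, hχ4, hχ5⟩ := hC 1 (fun _ => D.H) (fun _ => hD.tH)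
  obtain ⟨C, hgC⟩ := hg.bdd
  have hC0 : 0 ≤ C := (abs_nonneg _).trans (hgC 0)
  have hXi : FE (X i) := hX.oct.adm.fe i
  have hXb : ∀ t, |X i t| ≤ 1 := by
    intro t
    have h1 := hX.oct.le_one t
    have h2 : X i t ^ 2 ≤ ∑ j, X j t ^ 2 :=
      Finset.single_le_sum (f := fun j => X j t ^ 2) (fun j _ => sq_nonneg _) (Finset.mem_univ i)
    exact abs_le_one_iff_mul_self_le_one.2 (by nlinarith)
  set f : ℕ → ℝ → ℝ := fun k t => g t * χ k t with hf
  set gk : ℕ → ℝ → ℝ := fun k => D.H.indicator (fun t => g t * χ k t) with hgk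
  have hfE : ∀ k, FE (f k) := fun k => hg.mul (hχ1 k)
  have hgE : ∀ k, FE (gk k) := fun k => hχ5 k 0 g hg
  -- the equation for each `k`
  have hkeq : ∀ k, en (X i) (f k) = ∫ t, lamX D X t * (X i t * gk k t) ∂cm := by
    intro k
    have hvan : Van (D.Z i) (gk k) := by
      unfold Van at hgZ ⊢
      filter_upwards [hgZ] with t ht htZ
      simp only [hgk]
      by_cases hH : t ∈ D.H
      · rw [indicator_of_mem hH, ht htZ, zero_mul]
      · rw [indicator_of_notMem hH]
    have h0 : en (X i) (fun t => f k t - gk k t) = 0 := by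
      refine hF D X hX i _ ((hfE k).sub (hgE k)) ?_ ?_
      · unfold Van at hgZ hvan ⊢
        filter_upwards [hgZ, hvan] with t ht ht2 htZ
        rw [ht2 htZ, sub_zero]
        simp only [hf]
        rw [ht htZ, zero_mul]
      · unfold Van
        refine Eventually.of_forall fun t ht => ?_
        simp only [hf, hgk]
        rw [indicator_of_mem ht, sub_self]
    rw [en_sub_right hXi (hfE k) (hgE k), sub_eq_zero] at h0
    rw [h0, hR D X hX i (gk k) (hgE k) hvan]
    refine (hL D hD X hX.oct (fun t => X i t * gk k t) (hXi.mul (hgE k)) ?_).2.2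
    unfold Van
    refine Eventually.of_forall fun t ht => ?_
    simp only [hgk]
    rw [indicator_of_notMem ht, mul_zero]
  have hint : ∀ k, Integrable (fun t => lamX D X t * (X i t * gk k t)) cm := by
    intro k
    refine (hL D hD X hX.oct (fun t => X i t * gk k t) (hXi.mul (hgE k)) ?_).2.1
    unfold Van
    refine Eventually.of_forall fun t ht => ?_
    simp only [hgk]
    rw [indicator_of_notMem ht, mul_zero]
  -- limit of the left side
  obtain ⟨K, hK⟩ := hχ3.bddAbove_range
  have hK' : ∀ k, en (χ k) (χ k) ≤ K := fun k => hK ⟨k, rfl⟩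
  have hL1 : Tendsto (fun k => en (X i) (f k)) atTop (𝓝 (en (X i) g)) := by
    have := hW f g C (2 * en g g + 2 * C ^ 2 * K) hfE ?_ ?_ hg ?_ (X i) hXi
    · refine (this.congr fun k => en_comm _ _).trans ?_
      rw [en_comm]
    · intro k t
      simp only [hf]
      rw [abs_mul]
      have h1 : |χ k t| ≤ 1 := abs_le.2 ⟨by linarith [(hχ2 k t).1], (hχ2 k t).2⟩
      calc |g t| * |χ k t| ≤ C * 1 := mul_le_mul (hgC t) h1 (abs_nonneg _) hC0
        _ = C := mul_one C
    · intro k
      refine (BWOF.en_mul_le hg (hχ1 k) C hgC (hχ2 k)).trans ?_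
      have := mul_le_mul_of_nonneg_left (hK' k) (by positivity : (0 : ℝ) ≤ 2 * C ^ 2)
      linarith
    · filter_upwards [hχ4] with t ht
      have := ht.const_mul (g t)
      simpa [hf] using this
  -- limit of the right side
  have hlam := (hI D hD X hX).1
  have hR1 : Tendsto (fun k => ∫ t, lamX D X t * (X i t * gk k t) ∂cm) atTop
      (𝓝 (∫ t, lamX D X t * (X i t * g t) ∂cm)) := by
    refine tendsto_integral_of_dominated_convergence (fun t => ‖lamX D X t‖ * C)
      (fun k => (hint k).aestronglyMeasurable) (hlam.norm.mul_const C) ?_ ?_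
    · intro k
      refine Eventually.of_forall fun t => ?_
      rw [norm_mul]
      refine mul_le_mul_of_nonneg_left ?_ (norm_nonneg _)
      rw [Real.norm_eq_abs, abs_mul]
      have h1 : |gk k t| ≤ C := by
        simp only [hgk]
        by_cases hH : t ∈ D.H
        · rw [indicator_of_mem hH, abs_mul]
          have h1 : |χ k t| ≤ 1 := abs_le.2 ⟨by linarith [(hχ2 k t).1], (hχ2 k t).2⟩
          calc |g t| * |χ k t| ≤ C * 1 := mul_le_mul (hgC t) h1 (abs_nonneg _) hC0
            _ = C := mul_one C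
        · rw [indicator_of_notMem hH, abs_zero]
          exact hC0
      calc |X i t| * |gk k t| ≤ 1 * C := mul_le_mul (hXb t) h1 (abs_nonneg _) zero_le_one
        _ = C := one_mul C
    · filter_upwards [hχ4] with t ht
      by_cases hH : t ∈ D.H
      · have h1 : Tendsto (fun k => gk k t) atTop (𝓝 (g t)) := by
          have := ht.const_mul (g t)
          rw [mul_one] at this
          refine this.congr fun k => ?_
          simp only [hgk]
          rw [indicator_of_mem hH]
        exact (h1.const_mul (X i t)).const_mul (lamX D X t)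
      · have h1 : lamX D X t = 0 := by
          unfold lamX
          rw [indicator_of_notMem hH]
        simp only [h1, zero_mul]
        exact tendsto_const_nhds
  have hfin := tendsto_nhds_unique hL1 (hR1.congr fun k => (hkeq k).symm)
  rw [hfin]
  refine integral_congr_ae (Eventually.of_forall fun t => ?_)
  simp only
  ring

end Pool.Agent.FBM
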